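import Pool.Agent.Work.MP_547619_co_helper96.Defs

/-!
# Perfect elimination (building) orders, re-rooting, and tree decompositions (MP_547619_co)
-/

namespace Frag

open SimpleGraph

variable {V : Type*} [DecidableEq V]

/-- The neighbours of `v` in `W` form a clique. -/
def CliqueNbr (G : SimpleGraph V) (v : V) (W : Finset V) : Prop :=
  ∀ x ∈ W, ∀ y ∈ W, G.Adj v x → G.Adj v y → x ≠ y → G.Adj x y

/-- `W` is obtained from `L` by successively adding vertices attached to cliques. -/
inductive Build (G : SimpleGraph V) (L : Finset V) : Finset V → Prop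
  | base : Build G L L
  | step {W : Finset V} {v : V} : Build G L W → v ∉ W → CliqueNbr G v W → Build G L (insert v W)

variable {G : SimpleGraph V}

omit [DecidableEq V] in
lemma CliqueNbr.mono {v : V} {W W' : Finset V} (h : CliqueNbr G v W) (hs : W' ⊆ W) :
    CliqueNbr G v W' :=
  fun x hx y hy => h x (hs hx) y (hs hy)

lemma Build.subset {L W : Finset V} (h : Build G L W) : L ⊆ W := by
  induction h with
  | base => exact subset_rfl
  | step _ _ _ ih => exact ih.trans (Finset.subset_insert _ _)

lemma Build.trans {L W X : Finset V} (h : Build G L W) (h' : Build G W X) : Build G L X := by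
  induction h' with
  | base => exact h
  | step _ hv hc ih => exact Build.step ih hv hc

lemma Build.restrict {L W : Finset V} (h : Build G L W) (S : Finset V) :
    Build G (L ∩ S) (W ∩ S) := by
  induction h with
  | base => exact Build.base
  | @step W v _ hv hc ih =>
    by_cases hvS : v ∈ S
    · rw [Finset.insert_inter_of_mem hvS]
      exact Build.step ih (fun h => hv (Finset.mem_inter.1 h).1)
        (hc.mono Finset.inter_subset_left)
    · rw [Finset.insert_inter_of_notMem hvS]
      exact ih

lemma Build.restrict' {W : Finset V} (h : Build G ∅ W) {S : Finset V} (hS : S ⊆ W) :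
    Build G ∅ S := by
  have := h.restrict S
  rwa [Finset.empty_inter, Finset.inter_eq_right.2 hS] at this

/-- Adding to everything a set `Z` not adjacent to the new vertices. -/
lemma Build.union {L W : Finset V} (h : Build G L W) (Z : Finset V)
    (hdisj : ∀ z ∈ Z, z ∈ W → z ∈ L)
    (hadj : ∀ w ∈ W, w ∉ L → ∀ z ∈ Z, ¬ G.Adj w z) : Build G (L ∪ Z) (W ∪ Z) := by
  induction h with
  | base => exact Build.base
  | @step W v hb hv hc ih =>
    have hvL : v ∉ L := fun h => hv (hb.subset h)
    have hvZ : v ∉ Z := fun h => hvL (hdisj v h (Finset.mem_insert_self _ _))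
    have ih' := ih (fun z hz hzW => hdisj z hz (Finset.mem_insert_of_mem hzW))
      (fun w hw => hadj w (Finset.mem_insert_of_mem hw))
    rw [Finset.insert_union]
    refine Build.step ih' (fun h => ?_) ?_
    · rcases Finset.mem_union.1 h with h | h
      · exact hv h
      · exact hvZ h
    · intro x hx y hy hvx hvy hxy
      have key : ∀ u ∈ W ∪ Z, G.Adj v u → u ∈ W := by
        intro u hu hvu
        rcases Finset.mem_union.1 hu with h | h
        · exact h
        · exact absurd hvu (hadj v (Finset.mem_insert_self _ _) hvL u h)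
      exact hc x (key x hx hvx) y (key y hy hvy) hvx hvy hxy

/-- Cliques can be built from any subset. -/
lemma build_clique {L Q : Finset V} (hL : L ⊆ Q)
    (hQ : ∀ x ∈ Q, ∀ y ∈ Q, x ≠ y → G.Adj x y) : Build G L Q := by
  have key : ∀ S : Finset V, S ⊆ Q → Build G L (L ∪ S) := by
    intro S
    induction S using Finset.induction_on with
    | empty => intro _; rw [Finset.union_empty]; exact Build.base
    | insert v S hv ih =>
      intro hS
      have hvQ : v ∈ Q := hS (Finset.mem_insert_self _ _)
      have hSQ : S ⊆ Q := (Finset.subset_insert _ _).trans hS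
      rw [Finset.union_insert]
      by_cases hmem : v ∈ L ∪ S
      · rw [Finset.insert_eq_of_mem hmem]; exact ih hSQ
      · refine Build.step (ih hSQ) hmem ?_
        intro x hx y hy _ _ hxy
        have hsub : L ∪ S ⊆ Q := Finset.union_subset hL hSQ
        exact hQ x (hsub hx) y (hsub hy) hxy
  have := key Q subset_rfl
  rwa [Finset.union_eq_right.2 hL] at this

/-- Re-rooting: a set that can be built can be built starting from any of its cliques. -/
lemma Build.reroot {W : Finset V} (h : Build G ∅ W) :
    ∀ L ⊆ W, (∀ x ∈ L, ∀ y ∈ L, x ≠ y → G.Adj x y) → Build G L W := by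
  classical
  induction h with
  | base =>
    intro L hL _
    rw [Finset.subset_empty.1 hL]
    exact Build.base
  | @step W v hb hv hc ih =>
    intro L hL hLc
    by_cases hvL : v ∈ L
    · set L' : Finset V := W.filter (fun u => G.Adj v u) with hL'
      have hL'c : ∀ x ∈ L', ∀ y ∈ L', x ≠ y → G.Adj x y := by
        intro x hx y hy hxy
        rw [hL', Finset.mem_filter] at hx hy
        exact hc x hx.1 y hy.1 hx.2 hy.2 hxy
      have h1 := ih L' (Finset.filter_subset _ _) hL'c
      have h2 := h1.union {v} (fun z hz hzW => by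
        rw [Finset.mem_singleton] at hz
        exact absurd (hz ▸ hzW) hv) (fun w hw hwL z hz hadj => by
        rw [Finset.mem_singleton] at hz
        subst hz
        exact hwL (by rw [hL', Finset.mem_filter]; exact ⟨hw, hadj.symm⟩))
      have e : W ∪ {v} = insert v W := by
        rw [Finset.union_comm]; rfl
      rw [e] at h2
      refine Build.trans (build_clique ?_ ?_) h2
      · intro x hx
        rw [Finset.mem_union, Finset.mem_singleton]
        by_cases hxv : x = v
        · exact Or.inr hxv
        · left
          rw [hL', Finset.mem_filter]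
          have hxW := hL hx
          rw [Finset.mem_insert] at hxW
          exact ⟨hxW.resolve_left hxv, hLc v hvL x hx (Ne.symm hxv)⟩
      · intro x hx y hy hxy
        rw [Finset.mem_union, Finset.mem_singleton] at hx hy
        rcases hx with hx | rfl
        · rcases hy with hy | rfl
          · exact hL'c x hx y hy hxy
          · rw [hL', Finset.mem_filter] at hx
            exact hx.2.symm
        · rcases hy with hy | rfl
          · rw [hL', Finset.mem_filter] at hy
            exact hy.2
          · exact absurd rfl hxy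
    · have hLW : L ⊆ W := by
        intro x hx
        have := hL hx
        rw [Finset.mem_insert] at this
        rcases this with rfl | h
        · exact absurd hx hvL
        · exact h
      exact Build.step (ih L hLW hLc) hv hc

/-- Joining: a vertex attached to cliques in two closed parts. -/
lemma Build.join {W Z : Finset V} (h : Build G ∅ W) {v : V} (hv : v ∉ W) (hZ : Z ⊆ W)
    (hclosed : ∀ x ∈ Z, ∀ y ∈ W, y ∉ Z → ¬ G.Adj x y)
    (h1 : CliqueNbr G v Z) (h2 : CliqueNbr G v (W \ Z)) : Build G ∅ (insert v W) := by
  have hvZ : v ∉ Z := fun h => hv (hZ h)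
  have hvZ' : v ∉ W \ Z := fun h => hv (Finset.mem_sdiff.1 h).1
  have b1 : Build G ∅ (insert v Z) := Build.step (h.restrict' hZ) hvZ h1
  have b2 : Build G ∅ (insert v (W \ Z)) :=
    Build.step (h.restrict' Finset.sdiff_subset) hvZ' h2
  have b3 : Build G {v} (insert v Z) := by
    refine b1.reroot {v} ?_ ?_
    · intro x hx
      rw [Finset.mem_singleton] at hx
      rw [hx]; exact Finset.mem_insert_self _ _
    · intro x hx y hy hxy
      rw [Finset.mem_singleton] at hx hy
      exact absurd (hx.trans hy.symm) hxy
  have b4 := b3.union (W \ Z) (fun z hz hz' => by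
    rw [Finset.mem_insert] at hz'
    rw [Finset.mem_sdiff] at hz
    rcases hz' with rfl | h
    · exact Finset.mem_singleton_self _
    · exact absurd h hz.2) (fun w hw hwv z hz => by
    rw [Finset.mem_insert] at hw
    rw [Finset.mem_sdiff] at hz
    rcases hw with rfl | h
    · exact absurd (Finset.mem_singleton_self _) hwv
    · exact hclosed w h z hz.1 hz.2)
  have e1 : {v} ∪ W \ Z = insert v (W \ Z) := rfl
  have e2 : insert v Z ∪ W \ Z = insert v W := by
    rw [Finset.insert_union, Finset.union_sdiff_of_subset hZ]
  rw [e1, e2] at b4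
  exact b2.trans b4

/-- Changing the graph outside `W`. -/
lemma Build.congr {G' : SimpleGraph V} {W : Finset V} (h : Build G ∅ W)
    (hG : ∀ x ∈ W, ∀ y ∈ W, (G.Adj x y ↔ G'.Adj x y)) : Build G' ∅ W := by
  induction h with
  | base => exact Build.base
  | @step W v hb hv hc ih =>
    refine Build.step (ih fun x hx y hy => hG x (Finset.mem_insert_of_mem hx) y
      (Finset.mem_insert_of_mem hy)) hv ?_
    intro x hx y hy hvx hvy hxy
    rw [← hG v (Finset.mem_insert_self _ _) x (Finset.mem_insert_of_mem hx)] at hvx
    rw [← hG v (Finset.mem_insert_self _ _) y (Finset.mem_insert_of_mem hy)] at hvy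
    rw [← hG x (Finset.mem_insert_of_mem hx) y (Finset.mem_insert_of_mem hy)]
    exact hc x hx y hy hvx hvy hxy

/-- A tree decomposition presented by a parent function. -/
lemma exists_parent {W : Finset V} (h : Build G ∅ W) (k : ℕ)
    (hk : ∀ Q ⊆ W, (∀ x ∈ Q, ∀ y ∈ Q, x ≠ y → G.Adj x y) → Q.card ≤ k + 1) :
    ∃ (m : ℕ) (p : ℕ → ℕ) (bag : ℕ → Finset V), 0 < m ∧ (∀ i, 0 < i → p i < i) ∧
      (∀ i, bag i ⊆ W) ∧ (∀ i, (bag i).card ≤ k + 1) ∧
      (∀ Q ⊆ W, (∀ x ∈ Q, ∀ y ∈ Q, x ≠ y → G.Adj x y) → ∃ i < m, Q ⊆ bag i) ∧
      (∀ v ∈ W, ∃ r < m, v ∈ bag r ∧ ∀ i < m, v ∈ bag i → i ≠ r → 0 < i ∧ v ∈ bag (p i)) := by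
  classical
  induction h with
  | base =>
    refine ⟨1, fun _ => 0, fun _ => ∅, one_pos, fun i hi => hi, fun _ => subset_rfl,
      fun _ => by simp, ?_, ?_⟩
    · intro Q hQ _
      exact ⟨0, one_pos, hQ⟩
    · intro v hv
      exact absurd hv (Finset.notMem_empty v)
  | @step W v hb hv hc ih =>
    obtain ⟨m, p, bag, hm, hp, hsub, hcard, hcl, hroot⟩ := ih (fun Q hQ => hk Q
      (hQ.trans (Finset.subset_insert _ _)))
    set K : Finset V := W.filter (fun u => G.Adj v u) with hK
    have hKc : ∀ x ∈ K, ∀ y ∈ K, x ≠ y → G.Adj x y := by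
      intro x hx y hy hxy
      rw [hK, Finset.mem_filter] at hx hy
      exact hc x hx.1 y hy.1 hx.2 hy.2 hxy
    obtain ⟨i0, hi0, hKi0⟩ := hcl K (Finset.filter_subset _ _) hKc
    have hvKc : ∀ x ∈ insert v K, ∀ y ∈ insert v K, x ≠ y → G.Adj x y := by
      intro x hx y hy hxy
      rw [Finset.mem_insert] at hx hy
      rcases hx with rfl | hx
      · rcases hy with rfl | hy
        · exact absurd rfl hxy
        · rw [hK, Finset.mem_filter] at hy
          exact hy.2
      · rcases hy with rfl | hy
        · rw [hK, Finset.mem_filter] at hx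
          exact hx.2.symm
        · exact hKc x hx y hy hxy
    have hvKsub : insert v K ⊆ insert v W :=
      Finset.insert_subset_insert _ (Finset.filter_subset _ _)
    refine ⟨m + 1, Function.update p m i0, Function.update bag m (insert v K), by omega,
      ?_, ?_, ?_, ?_, ?_⟩
    · intro i hi
      by_cases him : i = m
      · subst him; rw [Function.update_self]; exact hi0
      · rw [Function.update_of_ne him]; exact hp i hi
    · intro i
      by_cases him : i = m
      · subst him; rw [Function.update_self]; exact hvKsub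
      · rw [Function.update_of_ne him]; exact (hsub i).trans (Finset.subset_insert _ _)
    · intro i
      by_cases him : i = m
      · subst him; rw [Function.update_self]; exact hk _ hvKsub hvKc
      · rw [Function.update_of_ne him]; exact hcard i
    · intro Q hQ hQc
      by_cases hvQ : v ∈ Q
      · refine ⟨m, by omega, ?_⟩
        rw [Function.update_self]
        intro x hx
        rw [Finset.mem_insert]
        by_cases hxv : x = v
        · exact Or.inl hxv
        · right
          rw [hK, Finset.mem_filter]
          have := hQ hx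
          rw [Finset.mem_insert] at this
          exact ⟨this.resolve_left hxv, hQc v hvQ x hx (Ne.symm hxv)⟩
      · have hQW : Q ⊆ W := by
          intro x hx
          have := hQ hx
          rw [Finset.mem_insert] at this
          rcases this with rfl | h
          · exact absurd hx hvQ
          · exact h
        obtain ⟨i, hi, hQi⟩ := hcl Q hQW hQc
        refine ⟨i, by omega, ?_⟩
        rw [Function.update_of_ne (by omega)]
        exact hQi
    · intro u hu
      by_cases huv : u = v
      · subst huv
        refine ⟨m, by omega, ?_, ?_⟩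
        · rw [Function.update_self]; exact Finset.mem_insert_self _ _
        · intro i hi hui hne
          rw [Function.update_of_ne hne] at hui
          exact absurd (hsub i hui) hv
      · rw [Finset.mem_insert] at hu
        obtain ⟨r, hr, hur, hrest⟩ := hroot u (hu.resolve_left huv)
        refine ⟨r, by omega, ?_, ?_⟩
        · rw [Function.update_of_ne (by omega)]; exact hur
        · intro i hi hui hne
          by_cases him : i = m
          · subst him
            rw [Function.update_self] at hui
            rw [Function.update_self]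
            refine ⟨hm, ?_⟩
            rw [Function.update_of_ne (by omega)]
            rw [Finset.mem_insert] at hui
            exact hKi0 (hui.resolve_left huv)
          · rw [Function.update_of_ne him] at hui
            rw [Function.update_of_ne him]
            have him' : i < m := by omega
            obtain ⟨h0, hpi⟩ := hrest i him' hui hne
            refine ⟨h0, ?_⟩
            have := hp i h0
            rw [Function.update_of_ne (by omega)]
            exact hpi

/-- The graph of a parent function on `Fin m`. -/
def parGraph (m : ℕ) (p : ℕ → ℕ) : SimpleGraph (Fin m) where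
  Adj i j := i ≠ j ∧ ((0 < (i : ℕ) ∧ p i = j) ∨ (0 < (j : ℕ) ∧ p j = i))
  symm := ⟨fun _ _ h => ⟨h.1.symm, h.2.symm⟩⟩
  loopless := ⟨fun _ h => h.1 rfl⟩

/-- If all elements of `A` except a root have their parent in `A`, then `A` is connected. -/
lemma parGraph_connected {m : ℕ} {p : ℕ → ℕ} (hp : ∀ i, 0 < i → p i < i) (A : Set (Fin m))
    (r : Fin m) (hr : r ∈ A)
    (hA : ∀ i ∈ A, i ≠ r → 0 < (i : ℕ) ∧ ∀ h : p i < m, (⟨p i, h⟩ : Fin m) ∈ A) :
    ((parGraph m p).induce A).Connected := by
  have key : ∀ n : ℕ, ∀ (h : n < m) (hn : (⟨n, h⟩ : Fin m) ∈ A),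
      ((parGraph m p).induce A).Reachable ⟨⟨n, h⟩, hn⟩ ⟨r, hr⟩ := by
    intro n
    induction n using Nat.strong_induction_on with
    | _ n ih =>
      intro h hn
      by_cases hnr : (⟨n, h⟩ : Fin m) = r
      · subst hnr; exact Reachable.refl _
      · obtain ⟨h0, hmem⟩ := hA _ hn hnr
        have hlt : p n < n := hp n h0
        have hpm : p n < m := hlt.trans h
        have h1 := ih (p n) hlt hpm (hmem hpm)
        refine Reachable.trans (Adj.reachable ?_) h1
        show (parGraph m p).Adj ⟨n, h⟩ ⟨p n, hpm⟩
        refine ⟨fun he => ?_, Or.inl ⟨h0, rfl⟩⟩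
        have := congrArg Fin.val he
        simp only at this
        omega
  have : Nonempty A := ⟨⟨r, hr⟩⟩
  refine ⟨fun a b => ?_⟩
  obtain ⟨⟨a, ha⟩, ha'⟩ := a
  obtain ⟨⟨b, hb⟩, hb'⟩ := b
  exact (key a ha ha').trans (key b hb hb').symm

lemma parGraph_isTree {m : ℕ} {p : ℕ → ℕ} (hm : 0 < m) (hp : ∀ i, 0 < i → p i < i) :
    (parGraph m p).IsTree := by
  classical
  have hconn : (parGraph m p).Connected := by
    have h := parGraph_connected (m := m) hp Set.univ ⟨0, hm⟩ trivial (fun i _ hi =>
      ⟨Nat.pos_of_ne_zero fun h => hi (Fin.ext h), fun _ => trivial⟩)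
    exact (SimpleGraph.induceUnivIso (parGraph m p)).connected_iff.1 h
  rw [isTree_iff_connected_and_card]
  refine ⟨hconn, ?_⟩
  have hle : Nat.card (parGraph m p).edgeSet + 1 ≤ m := by
    have hsub : (parGraph m p).edgeSet ⊆
        (fun i : Fin m => s(i, (⟨p i % m, Nat.mod_lt _ hm⟩ : Fin m))) '' {i | 0 < (i : ℕ)} := by
      intro e he
      induction e with
      | _ i j =>
        rw [mem_edgeSet] at he
        have main : ∀ i j : Fin m, 0 < (i : ℕ) → p i = j →
            s(i, (⟨p i % m, Nat.mod_lt _ hm⟩ : Fin m)) = s(i, j) := by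
          intro i j _ hij
          have : (⟨p i % m, Nat.mod_lt _ hm⟩ : Fin m) = j := by
            apply Fin.ext
            simp only
            rw [hij]
            exact Nat.mod_eq_of_lt j.2
          rw [this]
        rcases he.2 with ⟨h0, h1⟩ | ⟨h0, h1⟩
        · exact ⟨i, h0, main i j h0 h1⟩
        · refine ⟨j, h0, ?_⟩
          have := main j i h0 h1
          simp only at this ⊢
          rw [this]
          exact Sym2.eq_swap
    have h1 : (parGraph m p).edgeSet.ncard ≤ {i : Fin m | 0 < (i : ℕ)}.ncard :=
      (Set.ncard_le_ncard hsub (Set.toFinite _)).trans (Set.ncard_image_le (Set.toFinite _))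
    have h2 : {i : Fin m | 0 < (i : ℕ)}.ncard + 1 ≤ m := by
      have h3 : {i : Fin m | 0 < (i : ℕ)} = Set.univ \ {⟨0, hm⟩} := by
        ext i
        simp only [Set.mem_sdiff, Set.mem_univ, true_and, Set.mem_singleton_iff, Fin.ext_iff]
        exact Nat.pos_iff_ne_zero
      rw [h3, Set.ncard_sdiff_singleton_of_mem (Set.mem_univ _), Set.ncard_univ, Nat.card_fin]
      omega
    have h4 : Nat.card (parGraph m p).edgeSet = (parGraph m p).edgeSet.ncard := rfl
    omega
  have hge := hconn.card_vert_le_card_edgeSet_add_one
  rw [Nat.card_fin] at hge ⊢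
  omega

/-- Buildable sets whose cliques have at most `k + 1` elements have tree-width at most `k`. -/
theorem Build.treeWidthLE {G G' : SimpleGraph V} {W : Finset V} (h : Build G ∅ W) (k : ℕ)
    (hk : ∀ Q ⊆ W, (∀ x ∈ Q, ∀ y ∈ Q, x ≠ y → G.Adj x y) → Q.card ≤ k + 1)
    (hG' : ∀ x y, G'.Adj x y → G.Adj x y) (A : Set V) (hA : ∀ v, v ∈ A ↔ v ∈ W) :
    TreeWidthLE (G'.induce A) k := by
  classical
  obtain ⟨m, p, bag, hm, hp, hsub, hcard, hcl, hroot⟩ := exists_parent h k hk
  have hmem : ∀ (i : ℕ) (v : A), v ∈ (bag i).subtype (fun x => x ∈ A) ↔ (v : V) ∈ bag i :=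
    fun i v => Finset.mem_subtype
  refine ⟨m, parGraph m p, fun i => (bag i).subtype (fun x => x ∈ A), parGraph_isTree hm hp,
    ?_, ?_, ?_, ?_⟩
  · intro v
    obtain ⟨r, hr, hvr, _⟩ := hroot v ((hA v).1 v.2)
    exact ⟨⟨r, hr⟩, (hmem r v).2 hvr⟩
  · intro u v huv
    have huv' : G.Adj (u : V) (v : V) := hG' _ _ huv
    obtain ⟨i, hi, hQ⟩ := hcl {(u : V), (v : V)} (by
      intro x hx
      rw [Finset.mem_insert, Finset.mem_singleton] at hx
      rcases hx with rfl | rfl
      · exact (hA _).1 u.2
      · exact (hA _).1 v.2) (by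
      intro x hx y hy hxy
      rw [Finset.mem_insert, Finset.mem_singleton] at hx hy
      rcases hx with rfl | rfl
      · rcases hy with rfl | rfl
        · exact absurd rfl hxy
        · exact huv'
      · rcases hy with rfl | rfl
        · exact huv'.symm
        · exact absurd rfl hxy)
    exact ⟨⟨i, hi⟩, (hmem i u).2 (hQ (Finset.mem_insert_self _ _)),
      (hmem i v).2 (hQ (Finset.mem_insert_of_mem (Finset.mem_singleton_self _)))⟩
  · intro v
    obtain ⟨r, hr, hvr, hrest⟩ := hroot v ((hA v).1 v.2)
    refine parGraph_connected hp _ ⟨r, hr⟩ ((hmem r v).2 hvr) ?_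
    intro i hi hir
    obtain ⟨h0, h1⟩ := hrest i i.2 ((hmem i v).1 hi) (fun h => hir (Fin.ext h))
    exact ⟨h0, fun h => (hmem (p i) v).2 h1⟩
  · intro i
    refine le_trans ?_ (hcard i)
    rw [Finset.card_subtype]
    exact Finset.card_filter_le _ _

end Frag
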