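import Pool.Agent.Work.MP_547619_co_helper96.Defs

/-!
# The fragmentation lemma for tree decompositions (MP_547619_co)
-/

namespace Frag

open SimpleGraph

section tree

variable {ι : Type*} {T : SimpleGraph ι}

/-- `j` can be reached from `i` avoiding `s`. -/
def Av (T : SimpleGraph ι) (s i j : ι) : Prop := ∃ p : T.Walk i j, s ∉ p.support

lemma Av.symm {s i j : ι} (h : Av T s i j) : Av T s j i := by
  obtain ⟨p, hp⟩ := h
  exact ⟨p.reverse, by simpa using hp⟩

lemma Av.trans {s i j l : ι} (h : Av T s i j) (h' : Av T s j l) : Av T s i l := by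
  obtain ⟨p, hp⟩ := h
  obtain ⟨q, hq⟩ := h'
  refine ⟨p.append q, ?_⟩
  rw [Walk.mem_support_append_iff]
  tauto

lemma exists_step (hT : T.Connected) {s i : ι} (h : s ≠ i) :
    ∃ s', T.Adj s s' ∧ Av T s s' i := by
  classical
  obtain ⟨p⟩ := hT.preconnected s i
  obtain ⟨q, hq⟩ : ∃ q : T.Walk s i, q.IsPath := ⟨p.toPath, p.toPath.2⟩
  cases q with
  | nil => exact absurd rfl h
  | cons hadj q =>
    rw [Walk.cons_isPath_iff] at hq
    exact ⟨_, hadj, q, hq.2⟩

lemma no_loop (hT : T.IsAcyclic) {s s' i : ι} (hadj : T.Adj s s') (h1 : Av T s' s i)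
    (h2 : Av T s i s') : False := by
  obtain ⟨p, hp⟩ := h1
  obtain ⟨q, hq⟩ := h2
  have hb := isAcyclic_iff_forall_adj_isBridge.1 hT hadj
  rw [isBridge_iff_forall_walk_mem_edges] at hb
  have := hb (p.append q)
  rw [Walk.edges_append, List.mem_append] at this
  rcases this with h | h
  · exact hp (Walk.snd_mem_support_of_mem_edges _ h)
  · exact hq (Walk.fst_mem_support_of_mem_edges _ h)

lemma av_of_induce {A : Set ι} {s : ι} (hs : s ∉ A) {a b : A} (p : (T.induce A).Walk a b) :
    Av T s a b := by
  induction p with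
  | nil => exact ⟨Walk.nil, by simpa using fun h => hs (by rw [h]; exact Subtype.property _)⟩
  | @cons u v w h p ih =>
    have hadj : T.Adj (u : ι) (v : ι) := h
    obtain ⟨q, hq⟩ := ih
    refine ⟨Walk.cons hadj q, ?_⟩
    rw [Walk.support_cons, List.mem_cons, not_or]
    exact ⟨fun h => hs (by rw [h]; exact u.2), hq⟩

/-- The combinatorics of branches: `D s` is the set of nodes separated from `r` by `s`. -/
lemma branch (hT : T.IsTree) (r : ι) {s i : ι} (hi : ¬ Av T s r i) (hne : s ≠ i) :
    ∃ s', (∀ j, Av T s i j → ¬ Av T s' r j) ∧ (∀ j, ¬ Av T s' r j → ¬ Av T s r j) ∧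
      Av T s' r s := by
  classical
  obtain ⟨s', hadj, hav⟩ := exists_step hT.connected hne
  have hrs' : ¬ Av T s r s' := fun h => hi (h.trans hav)
  refine ⟨s', ?_, ?_, ?_⟩
  · intro j hij ⟨p, hp⟩
    have hs : s ∈ p.support := by
      by_contra hs
      exact hi (Av.trans ⟨p, hs⟩ hij.symm)
    refine no_loop hT.isAcyclic hadj (i := j) ⟨p.dropUntil s hs, fun h => hp ?_⟩
      (hij.symm.trans hav.symm)
    exact p.support_dropUntil_subset_support hs h
  · intro j hj ⟨p, hp⟩
    apply hj
    refine ⟨p, fun h => hrs' ⟨p.takeUntil s' h, fun h' => hp ?_⟩⟩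
    exact p.support_takeUntil_subset_support h h'
  · obtain ⟨p⟩ := hT.connected.preconnected r s
    obtain ⟨q, hq⟩ : ∃ q : T.Walk r s, q.IsPath := ⟨p.toPath, p.toPath.2⟩
    refine ⟨q, fun h => hrs' ⟨q.takeUntil s' h, fun h' => ?_⟩⟩
    exact Walk.endpoint_notMem_support_takeUntil hq h hadj.ne h'

end tree

/-- **Fragmentation lemma.** A graph with a tree decomposition of width at most `k` can be cut into
pieces of size `< C` by removing at most `(k + 1)|U| / C` vertices (relative to a vertex set `U`). -/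
theorem fragment_aux {V : Type*} [DecidableEq V] (G : SimpleGraph V) (k C : ℕ)
    (hC : 1 ≤ C) {m : ℕ} (T : SimpleGraph (Fin m)) (bag : Fin m → Finset V) (hT : T.IsTree)
    (hedge : ∀ u v : V, G.Adj u v → ∃ i, u ∈ bag i ∧ v ∈ bag i)
    (hconn : ∀ v : V, (T.induce {i | v ∈ bag i}).Connected)
    (hcard : ∀ i, (bag i).card ≤ k + 1) (U : Finset V) :
    ∃ X ⊆ U, X.card * C ≤ (k + 1) * U.card ∧
      ∀ v ∈ U \ X, ∃ S ⊆ U \ X, v ∈ S ∧ S.card < C ∧
        ∀ x ∈ S, ∀ y ∈ U \ X, G.Adj x y → y ∈ S := by
  classical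
  obtain ⟨r⟩ : Nonempty (Fin m) := hT.connected.nonempty
  have hcover : ∀ v : V, ∃ i, v ∈ bag i := fun v => by
    obtain ⟨i⟩ := (hconn v).nonempty
    exact ⟨i.1, i.2⟩
  -- connectivity of the bag sets
  have hav : ∀ (s : Fin m) (v : V), v ∉ bag s → ∀ i j, v ∈ bag i → v ∈ bag j → Av T s i j := by
    intro s v hv i j hi hj
    obtain ⟨p⟩ := (hconn v).preconnected ⟨i, hi⟩ ⟨j, hj⟩
    exact av_of_induce (A := {i | v ∈ bag i}) hv p
  -- branches
  let D : Fin m → Finset (Fin m) := fun s => Finset.univ.filter (fun i => ¬ Av T s r i)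
  induction U using Finset.strongInduction with
  | H U ih =>
  rcases Nat.lt_or_ge U.card C with hlt | hge
  · refine ⟨∅, Finset.empty_subset _, by simp, ?_⟩
    intro v hv
    rw [Finset.sdiff_empty] at hv ⊢
    exact ⟨U, subset_rfl, hv, hlt, fun x _ y hy _ => hy⟩
  · let Us : Fin m → Finset V := fun s => U.filter (fun u => ∃ i ∈ D s, u ∈ bag i)
    have hUr : Us r = U := by
      apply Finset.filter_true_of_mem
      intro u _
      obtain ⟨i, hi⟩ := hcover u
      refine ⟨i, ?_, hi⟩
      simp only [D, Finset.mem_filter, Finset.mem_univ, true_and]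
      rintro ⟨p, hp⟩
      exact hp p.start_mem_support
    obtain ⟨s, hs, hmin⟩ := Finset.exists_min_image
      (Finset.univ.filter (fun s => C ≤ (Us s).card)) (fun s => (D s).card)
      ⟨r, by simp only [Finset.mem_filter, Finset.mem_univ, true_and, hUr]; exact hge⟩
    simp only [Finset.mem_filter, Finset.mem_univ, true_and] at hs hmin
    have hsD : s ∈ D s := by
      simp only [D, Finset.mem_filter, Finset.mem_univ, true_and]
      rintro ⟨p, hp⟩
      exact hp p.end_mem_support
    have hUsub : Us s ⊆ U := Finset.filter_subset _ _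
    have hUne : (Us s).Nonempty := Finset.card_pos.1 (by omega)
    have hlt : U \ Us s ⊂ U := Finset.sdiff_ssubset hUsub hUne
    obtain ⟨X', hX'sub, hX'card, hX'⟩ := ih (U \ Us s) hlt
    set B : Finset V := U ∩ bag s with hB
    have hBsub : B ⊆ Us s := by
      intro u hu
      rw [hB, Finset.mem_inter] at hu
      exact Finset.mem_filter.2 ⟨hu.1, s, hsD, hu.2⟩
    have hX'disj : ∀ u ∈ Us s, u ∉ X' := by
      intro u hu h
      exact (Finset.mem_sdiff.1 (hX'sub h)).2 hu
    refine ⟨B ∪ X', ?_, ?_, ?_⟩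
    · exact Finset.union_subset (hBsub.trans hUsub) (hX'sub.trans Finset.sdiff_subset)
    · have h1 : (B ∪ X').card ≤ B.card + X'.card := Finset.card_union_le _ _
      have h2 : B.card ≤ k + 1 :=
        (Finset.card_le_card Finset.inter_subset_right).trans (hcard s)
      have h3 : (U \ Us s).card = U.card - (Us s).card := by
        rw [Finset.card_sdiff_of_subset hUsub]
      have h4 : (Us s).card ≤ U.card := Finset.card_le_card hUsub
      calc (B ∪ X').card * C ≤ (B.card + X'.card) * C := Nat.mul_le_mul_right _ h1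
        _ = B.card * C + X'.card * C := by ring
        _ ≤ (k + 1) * (Us s).card + (k + 1) * (U \ Us s).card :=
            Nat.add_le_add (Nat.mul_le_mul h2 hs) hX'card
        _ = (k + 1) * ((Us s).card + (U.card - (Us s).card)) := by rw [h3]; ring
        _ = (k + 1) * U.card := by rw [Nat.add_sub_cancel' h4]
    · intro v hv
      rw [Finset.mem_sdiff, Finset.mem_union, not_or] at hv
      obtain ⟨hvU, hvB, hvX'⟩ := hv
      have hvs : v ∉ bag s := fun h => hvB (Finset.mem_inter.2 ⟨hvU, h⟩)
      by_cases hvD : v ∈ Us s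
      · -- `v` lies in a branch below `s`
        obtain ⟨_, i, hiD, hvi⟩ := Finset.mem_filter.1 hvD
        have hne : s ≠ i := fun h => hvs (h ▸ hvi)
        have hiD' : ¬ Av T s r i := by
          simpa only [D, Finset.mem_filter, Finset.mem_univ, true_and] using hiD
        obtain ⟨s', hs1, hs2, hs3⟩ := branch hT r hiD' hne
        refine ⟨U.filter (fun u => u ∉ bag s ∧ ∃ j, u ∈ bag j ∧ Av T s i j), ?_, ?_, ?_, ?_⟩
        · intro u hu
          obtain ⟨huU, hus, j, huj, hij⟩ := Finset.mem_filter.1 hu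
          have huD : u ∈ Us s := by
            refine Finset.mem_filter.2 ⟨huU, j, ?_, huj⟩
            simp only [D, Finset.mem_filter, Finset.mem_univ, true_and]
            exact fun h => hiD' (h.trans hij.symm)
          rw [Finset.mem_sdiff, Finset.mem_union, not_or]
          exact ⟨huU, fun h => hus (Finset.mem_inter.1 h).2, hX'disj u huD⟩
        · refine Finset.mem_filter.2 ⟨hvU, hvs, i, hvi, ?_⟩
          exact hav s v hvs i i hvi hvi
        · -- the piece is smaller than `C`
          have hDlt : (D s').card < (D s).card := by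
            apply Finset.card_lt_card
            refine ⟨fun j hj => ?_, fun h => ?_⟩
            · simp only [D, Finset.mem_filter, Finset.mem_univ, true_and] at hj ⊢
              exact hs2 j hj
            · have := h hsD
              simp only [D, Finset.mem_filter, Finset.mem_univ, true_and] at this
              exact this hs3
          have hlt' : (Us s').card < C := by
            by_contra hcon
            exact absurd (hmin s' (not_lt.1 hcon)) (not_le.2 hDlt)
          refine lt_of_le_of_lt (Finset.card_le_card ?_) hlt'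
          intro u hu
          obtain ⟨huU, hus, j, huj, hij⟩ := Finset.mem_filter.1 hu
          refine Finset.mem_filter.2 ⟨huU, j, ?_, huj⟩
          simp only [D, Finset.mem_filter, Finset.mem_univ, true_and]
          exact hs1 j hij
        · intro x hx y hy hxy
          obtain ⟨hxU, hxs, j, hxj, hij⟩ := Finset.mem_filter.1 hx
          rw [Finset.mem_sdiff, Finset.mem_union, not_or] at hy
          obtain ⟨hyU, hyB, hyX'⟩ := hy
          have hys : y ∉ bag s := fun h => hyB (Finset.mem_inter.2 ⟨hyU, h⟩)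
          obtain ⟨l, hxl, hyl⟩ := hedge x y hxy
          exact Finset.mem_filter.2 ⟨hyU, hys, l, hyl, hij.trans (hav s x hxs j l hxj hxl)⟩
      · -- `v` lies outside
        have hv' : v ∈ (U \ Us s) \ X' :=
          Finset.mem_sdiff.2 ⟨Finset.mem_sdiff.2 ⟨hvU, hvD⟩, hvX'⟩
        obtain ⟨S, hSsub, hvS, hScard, hS⟩ := hX' v hv'
        refine ⟨S, ?_, hvS, hScard, ?_⟩
        · intro u hu
          have := hSsub hu
          rw [Finset.mem_sdiff, Finset.mem_sdiff] at this
          rw [Finset.mem_sdiff, Finset.mem_union, not_or]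
          exact ⟨this.1.1, fun h => this.1.2 (hBsub h), this.2⟩
        · intro x hx y hy hxy
          rw [Finset.mem_sdiff, Finset.mem_union, not_or] at hy
          obtain ⟨hyU, hyB, hyX'⟩ := hy
          refine hS x hx y ?_ hxy
          rw [Finset.mem_sdiff, Finset.mem_sdiff]
          refine ⟨⟨hyU, fun hyD => ?_⟩, hyX'⟩
          have hys : y ∉ bag s := fun h => hyB (Finset.mem_inter.2 ⟨hyU, h⟩)
          obtain ⟨_, i, hiD, hyi⟩ := Finset.mem_filter.1 hyD
          have hiD' : ¬ Av T s r i := by
            simpa only [D, Finset.mem_filter, Finset.mem_univ, true_and] using hiD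
          obtain ⟨l, hxl, hyl⟩ := hedge x y hxy
          have hxU := hSsub hx
          rw [Finset.mem_sdiff, Finset.mem_sdiff] at hxU
          apply hxU.1.2
          refine Finset.mem_filter.2 ⟨hxU.1.1, l, ?_, hxl⟩
          simp only [D, Finset.mem_filter, Finset.mem_univ, true_and]
          exact fun h => hiD' (h.trans (hav s y hys l i hyl hyi))

/-- **Fragmentation lemma**, global form. -/
theorem fragment {V : Type*} [Fintype V] [DecidableEq V] (G : SimpleGraph V) (k C : ℕ)
    (hC : 1 ≤ C) (h : TreeWidthLE G k) :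
    ∃ X : Finset V, X.card * C ≤ (k + 1) * Fintype.card V ∧
      ∀ v ∉ X, ∃ S : Finset V, (∀ u ∈ S, u ∉ X) ∧ v ∈ S ∧ S.card < C ∧
        ∀ x ∈ S, ∀ y ∉ X, G.Adj x y → y ∈ S := by
  obtain ⟨m, T, bag, hT, _, hedge, hconn, hcard⟩ := h
  obtain ⟨X, _, hX, hS⟩ := fragment_aux G k C hC T bag hT hedge hconn hcard Finset.univ
  refine ⟨X, hX, ?_⟩
  intro v hv
  obtain ⟨S, h1, h2, h3, h4⟩ := hS v (by simp [hv])
  refine ⟨S, fun u hu => ?_, h2, h3, fun x hx y hy hxy => h4 x hx y (by simp [hy]) hxy⟩
  have := h1 hu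
  simpa using this

end Frag
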