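import Pool.Agent.Work.MP_547619_co_h92.Sys
import Pool.Agent.Work.MP_547619_co_h92.Fragment

/-!
# Lower bound for the coefficient of fragmentability (MP_547619_co)
-/

namespace Frag

open SimpleGraph

/-- The class of all quasi-line graphs of maximum degree at most `d`: the neighbourhood of every vertex
is the union of two cliques. -/
def quasiLineClass (d : ℕ) : GraphClass :=
  fun _ G => (∀ v, (G.neighborSet v).ncard ≤ d) ∧
    ∀ v, ∃ A B, G.IsClique A ∧ G.IsClique B ∧ G.neighborSet v = A ∪ B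

section peel

variable {V P : Type*}

lemma exists_leaf {f : ZMod 2 → V → P} {C : ℕ} (hf : NoClosed f C) (F : Finset V)
    (hF : F.Nonempty)
    (hsmall : ∀ v ∈ F, ∃ S : Finset V, v ∈ S ∧ S.card ≤ C ∧
      ∀ x ∈ S, ∀ y ∈ F, x ≠ y → ∀ t, f t x = f t y → y ∈ S) :
    ∃ v ∈ F, ∃ t, ∀ u ∈ F, u ≠ v → f t u ≠ f t v := by
  classical
  by_contra hcon
  push Not at hcon
  obtain ⟨v0, hv0⟩ := hF
  have hnext : ∀ (t : ZMod 2) (v : {v // v ∈ F}), ∃ u : {v // v ∈ F},
      u.1 ≠ v.1 ∧ f t u.1 = f t v.1 := by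
    intro t v
    obtain ⟨u, hu, h1, h2⟩ := hcon v v.2 t
    exact ⟨⟨u, hu⟩, h1, h2⟩
  choose nxt hn1 hn2 using hnext
  let w : ℕ → {v // v ∈ F} := fun n => Nat.rec ⟨v0, hv0⟩ (fun i x => nxt (i : ZMod 2) x) n
  have hw : ∀ i, w (i + 1) = nxt (i : ZMod 2) (w i) := fun i => rfl
  have hw0 : w 0 = ⟨v0, hv0⟩ := rfl
  have halt : ∀ n, AltWalk f 0 n (fun i => (w i).1) := by
    intro n i _
    refine ⟨?_, ?_⟩
    · simp only [hw]
      exact (hn1 _ _).symm
    · simp only [hw, zero_add]
      exact (hn2 _ _).symm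
  obtain ⟨S, hv0S, hScard, hS⟩ := hsmall v0 hv0
  have hmem : ∀ i, (w i).1 ∈ S := by
    intro i
    induction i with
    | zero => rw [hw0]; exact hv0S
    | succ i ih =>
      rw [hw]
      exact hS _ ih _ (nxt (i : ZMod 2) (w i)).2 (hn1 _ _).symm _ (hn2 _ _).symm
  obtain ⟨i, hi, j, hj, hij, heq⟩ := Finset.exists_ne_map_eq_of_card_lt_of_maps_to
    (s := Finset.range (C + 1)) (t := S) (f := fun i => (w i).1)
    (by rw [Finset.card_range]; omega) (fun i _ => hmem i)
  rw [Finset.mem_range] at hi hj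
  have key : ∀ i j, i < j → j < C + 1 → (w i).1 = (w j).1 → False := by
    intro i j hij hj heq
    have h1 := altWalk_shift (k := i) (halt j)
    have := hf _ (j - i) _ (by omega) (by omega) h1
    apply this
    simp only [add_zero]
    rw [show i + (j - i) = j by omega]
    exact heq.symm
  rcases Nat.lt_or_gt_of_ne hij with h | h
  · exact key i j h hj heq
  · exact key j i h hi heq.symm

/-- Peeling: a set of points all of whose pieces are small has at most as many points as lines. -/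
lemma card_le_lines [DecidableEq V] [DecidableEq P] {f : ZMod 2 → V → P} {C : ℕ}
    (hf : NoClosed f C) (F : Finset V)
    (hsmall : ∀ v ∈ F, ∃ S : Finset V, v ∈ S ∧ S.card ≤ C ∧
      ∀ x ∈ S, ∀ y ∈ F, x ≠ y → ∀ t, f t x = f t y → y ∈ S) :
    F.card ≤ (F.image (f 0)).card + (F.image (f 1)).card := by
  induction F using Finset.strongInduction with
  | H F ih =>
  rcases F.eq_empty_or_nonempty with rfl | hF
  · simp
  obtain ⟨v, hv, t, ht⟩ := exists_leaf hf F hF hsmall
  have ih' := ih (F.erase v) (Finset.erase_ssubset hv) (by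
    intro u hu
    obtain ⟨S, h1, h2, h3⟩ := hsmall u (Finset.mem_of_mem_erase hu)
    exact ⟨S, h1, h2, fun x hx y hy => h3 x hx y (Finset.mem_of_mem_erase hy)⟩)
  rw [Finset.card_erase_of_mem hv] at ih'
  have hpos : 1 ≤ F.card := Finset.card_pos.2 hF
  -- lines of the other type
  have hsub : ∀ c, ((F.erase v).image (f c)).card ≤ (F.image (f c)).card := fun c =>
    Finset.card_le_card (Finset.image_subset_image (Finset.erase_subset _ _))
  have hlt : ((F.erase v).image (f t)).card < (F.image (f t)).card := by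
    apply Finset.card_lt_card
    refine ⟨Finset.image_subset_image (Finset.erase_subset _ _), fun h => ?_⟩
    obtain ⟨u, hu, hfu⟩ := Finset.mem_image.1 (h (Finset.mem_image_of_mem (f t) hv))
    exact ht u (Finset.mem_of_mem_erase hu) (Finset.ne_of_mem_erase hu) hfu
  have h0 := hsub 0
  have h1 := hsub 1
  obtain rfl | rfl : t = 0 ∨ t = 1 := by
    fin_cases t
    · left; rfl
    · right; rfl
  · omega
  · omega

end peel

/-- Systems on `Fin n`. -/
theorem exists_system_fin (s : ZMod 2 → ℕ) (hs : ∀ c, 1 ≤ s c) (L : ℕ) :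
    ∃ (n : ℕ) (P : Type) (f : ZMod 2 → Fin n → P), 0 < n ∧
      NoClosed f L ∧ ∀ c v, {u | f c u = f c v}.ncard = s c := by
  obtain ⟨V, P, hF, hD, hN, f, hf, hcard⟩ := exists_system s hs L
  let e := Fintype.equivFin V
  refine ⟨Fintype.card V, P, fun c x => f c (e.symm x), Fintype.card_pos, ?_, ?_⟩
  · intro t n w hn hL hw hclosed
    refine hf t n (fun i => e.symm (w i)) hn hL (fun i hi => ⟨fun h => ?_, (hw i hi).2⟩) ?_
    · exact (hw i hi).1 (e.symm.injective h)
    · simp only [hclosed]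
  · intro c v
    rw [← hcard c (e.symm v)]
    have : {u | f c (e.symm u) = f c (e.symm v)} = e '' {u | f c u = f c (e.symm v)} := by
      ext u
      simp only [Set.mem_image]
      constructor
      · intro h
        exact ⟨e.symm u, h, e.apply_symm_apply u⟩
      · rintro ⟨x, hx, rfl⟩
        show f c (e.symm (e x)) = _
        rw [e.symm_apply_apply]
        exact hx
    rw [this, Set.ncard_image_of_injective _ e.injective]

/-- The point graph of a system. -/
def sysGraph {V P : Type*} (f : ZMod 2 → V → P) : SimpleGraph V where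
  Adj u v := u ≠ v ∧ ∃ t, f t u = f t v
  symm := ⟨fun _ _ h => ⟨h.1.symm, h.2.imp fun _ h => h.symm⟩⟩
  loopless := ⟨fun _ h => h.1 rfl⟩

lemma sysGraph_quasiLine {n : ℕ} {P : Type} (f : ZMod 2 → Fin n → P) (s : ZMod 2 → ℕ)
    (hs : ∀ c, 1 ≤ s c) (hcard : ∀ c v, {u | f c u = f c v}.ncard = s c) :
    quasiLineClass (s 0 + s 1 - 2) n (sysGraph f) := by
  have hnb : ∀ v, (sysGraph f).neighborSet v
      = ({u | f 0 u = f 0 v} \ {v}) ∪ ({u | f 1 u = f 1 v} \ {v}) := by
    intro v
    ext u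
    rw [mem_neighborSet]
    constructor
    · rintro ⟨h1, t, ht⟩
      obtain rfl | rfl : t = 0 ∨ t = 1 := by
        fin_cases t
        · left; rfl
        · right; rfl
      · exact Or.inl ⟨ht.symm, fun h => h1 h.symm⟩
      · exact Or.inr ⟨ht.symm, fun h => h1 h.symm⟩
    · rintro (⟨h1, h2⟩ | ⟨h1, h2⟩)
      · exact ⟨fun h => h2 h.symm, 0, Eq.symm h1⟩
      · exact ⟨fun h => h2 h.symm, 1, Eq.symm h1⟩
  have hline : ∀ (c : ZMod 2) (v : Fin n), ({u | f c u = f c v} \ {v}).ncard = s c - 1 := by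
    intro c v
    rw [← hcard c v]
    exact Set.ncard_sdiff_singleton_of_mem (a := v) (s := {u | f c u = f c v}) rfl
  refine ⟨fun v => ?_, fun v => ?_⟩
  · rw [hnb v]
    refine (Set.ncard_union_le _ _).trans ?_
    rw [hline, hline]
    have h0 := hs 0
    have h1 := hs 1
    omega
  · refine ⟨_, _, ?_, ?_, hnb v⟩
    · intro x hx y hy hxy
      exact ⟨hxy, 0, (hx.1 : f 0 x = f 0 v).trans (hy.1 : f 0 y = f 0 v).symm⟩
    · intro x hx y hy hxy
      exact ⟨hxy, 1, (hx.1 : f 1 x = f 1 v).trans (hy.1 : f 1 y = f 1 v).symm⟩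

lemma lines_count {n : ℕ} {P : Type} [DecidableEq P] (f : ZMod 2 → Fin n → P) (s : ZMod 2 → ℕ)
    (hcard : ∀ c v, {u | f c u = f c v}.ncard = s c) (c : ZMod 2) :
    ((Finset.univ.image (f c)).card : ℕ) * s c = n := by
  classical
  have h := Finset.card_eq_sum_card_image (f c) (Finset.univ : Finset (Fin n))
  rw [Finset.card_univ, Fintype.card_fin] at h
  have h2 : ∀ p ∈ Finset.univ.image (f c),
      (Finset.univ.filter (fun a => f c a = p)).card = s c := by
    intro p hp
    obtain ⟨v, _, rfl⟩ := Finset.mem_image.1 hp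
    rw [← hcard c v, ← Set.ncard_coe_finset]
    congr 1
    ext u
    simp
  rw [Finset.sum_congr rfl h2, Finset.sum_const, smul_eq_mul] at h
  exact h.symm

/-- The basic inequality. -/
theorem basic_ineq (s : ZMod 2 → ℕ) (hs : ∀ c, 1 ≤ s c) (Cl : GraphClass)
    (hCl : ∀ n G, quasiLineClass (s 0 + s 1 - 2) n G → Cl n G) (lam : ℝ) (k : ℕ)
    (h : ∀ (n : ℕ) (G : SimpleGraph (Fin n)), Cl n G →
      ∃ S : Finset (Fin n), (S.card : ℝ) ≤ lam * (n : ℝ) ∧
        TreeWidthLE (G.induce {v | v ∉ S}) k) (C : ℕ) (hC : 1 ≤ C) :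
    1 ≤ lam + ((k : ℝ) + 1) / C + 1 / (s 0 : ℝ) + 1 / (s 1 : ℝ) := by
  classical
  obtain ⟨n, P, f, hn, hf, hcard⟩ := exists_system_fin s hs C
  obtain ⟨S, hS, htw⟩ := h n (sysGraph f) (hCl _ _ (sysGraph_quasiLine f s hs hcard))
  obtain ⟨X, hX, hsm⟩ := fragment _ k C hC htw
  set F : Finset (Fin n) := (Finset.univ \ X).map (Function.Embedding.subtype _) with hF
  have hFmem : ∀ y, y ∈ F ↔ ∃ hy : y ∈ {v | v ∉ S}, (⟨y, hy⟩ : {v // v ∈ {v | v ∉ S}}) ∉ X := by
    intro y
    rw [hF, Finset.mem_map]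
    constructor
    · rintro ⟨z, hz, rfl⟩
      rw [Finset.mem_sdiff] at hz
      exact ⟨z.2, hz.2⟩
    · rintro ⟨hy, h⟩
      exact ⟨⟨y, hy⟩, by simp [h], rfl⟩
  -- number of lines
  have hFle : F.card ≤ (F.image (f 0)).card + (F.image (f 1)).card := by
    apply card_le_lines hf
    intro v hv
    obtain ⟨hvS, hvX⟩ := (hFmem v).1 hv
    obtain ⟨S', hS'X, hvS', hS'card, hS'⟩ := hsm ⟨v, hvS⟩ hvX
    refine ⟨S'.map (Function.Embedding.subtype _), ?_, ?_, ?_⟩
    · exact Finset.mem_map.2 ⟨⟨v, hvS⟩, hvS', rfl⟩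
    · rw [Finset.card_map]; exact hS'card.le
    · intro x hx y hy hxy t ht
      obtain ⟨x', hx', rfl⟩ := Finset.mem_map.1 hx
      obtain ⟨hyS, hyX⟩ := (hFmem y).1 hy
      refine Finset.mem_map.2 ⟨⟨y, hyS⟩, hS' x' hx' ⟨y, hyS⟩ hyX ?_, rfl⟩
      exact ⟨hxy, t, ht⟩
  have himg : ∀ c, (F.image (f c)).card ≤ (Finset.univ.image (f c)).card := fun c =>
    Finset.card_le_card (Finset.image_subset_image (Finset.subset_univ _))
  have hL0 := lines_count f s hcard 0
  have hL1 := lines_count f s hcard 1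
  -- total count
  have hFcard : F.card + X.card + S.card = n := by
    rw [hF, Finset.card_map, Finset.card_sdiff_of_subset (Finset.subset_univ _), Finset.card_univ]
    have h1 : X.card ≤ Fintype.card {v // v ∈ {v | v ∉ S}} := Finset.card_le_univ X
    have h2 : Fintype.card {v // v ∈ {v | v ∉ S}} = n - S.card := by
      have : Fintype.card {v // v ∉ S} = n - S.card := by
        rw [Fintype.card_subtype_compl]
        simp
      rw [← this]
      exact Fintype.card_congr (Equiv.refl _)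
    have h3 : S.card ≤ n := by
      have := Finset.card_le_univ S
      simpa using this
    omega
  have hXle : (X.card : ℝ) * C ≤ (k + 1) * n := by
    have h2 : Fintype.card {v // v ∈ {v | v ∉ S}} ≤ n := by
      have := Fintype.card_subtype_le (fun v => v ∈ {v : Fin n | v ∉ S})
      rw [Fintype.card_fin] at this
      exact this
    have h3 : X.card * C ≤ (k + 1) * n := hX.trans (Nat.mul_le_mul_left _ h2)
    exact_mod_cast h3
  have hnR : (0 : ℝ) < n := by exact_mod_cast hn
  have hCR : (0 : ℝ) < C := by exact_mod_cast (show 0 < C by omega)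
  have hs0 : (0 : ℝ) < s 0 := by exact_mod_cast (show 0 < s 0 from hs 0)
  have hs1 : (0 : ℝ) < s 1 := by exact_mod_cast (show 0 < s 1 from hs 1)
  have e0 : ((Finset.univ.image (f 0)).card : ℝ) = n * (1 / s 0) := by
    rw [eq_comm, mul_one_div, div_eq_iff hs0.ne']
    exact_mod_cast hL0.symm
  have e1 : ((Finset.univ.image (f 1)).card : ℝ) = n * (1 / s 1) := by
    rw [eq_comm, mul_one_div, div_eq_iff hs1.ne']
    exact_mod_cast hL1.symm
  have hXle' : (X.card : ℝ) ≤ n * ((k + 1) / C) := by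
    rw [mul_div_assoc', le_div_iff₀ hCR]
    linarith [hXle]
  have hF' : (F.card : ℝ) ≤ n * (1 / s 0) + n * (1 / s 1) := by
    rw [← e0, ← e1]
    exact_mod_cast hFle.trans (Nat.add_le_add (himg 0) (himg 1))
  have htot : (F.card : ℝ) + X.card + S.card = n := by exact_mod_cast hFcard
  have hfin : (n : ℝ) * 1 ≤ n * (lam + ((k : ℝ) + 1) / C + 1 / (s 0 : ℝ) + 1 / (s 1 : ℝ)) := by
    linarith
  exact le_of_mul_le_mul_left hfin hnR

/-- **Lower bound.** Every admissible `lam` of a class containing all quasi-line graphs of maximum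
degree at most `a + b - 2` is at least `1 - 1/a - 1/b`. -/
theorem lower_bound (a b : ℕ) (ha : 1 ≤ a) (hb : 1 ≤ b) (Cl : GraphClass)
    (hCl : ∀ n G, quasiLineClass (a + b - 2) n G → Cl n G) (lam : ℝ) (k : ℕ)
    (h : ∀ (n : ℕ) (G : SimpleGraph (Fin n)), Cl n G →
      ∃ S : Finset (Fin n), (S.card : ℝ) ≤ lam * (n : ℝ) ∧
        TreeWidthLE (G.induce {v | v ∉ S}) k) :
    1 - 1 / (a : ℝ) - 1 / (b : ℝ) ≤ lam := by
  let s : ZMod 2 → ℕ := fun c => if c = 0 then a else b
  have h0 : s 0 = a := if_pos rfl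
  have h1 : s 1 = b := if_neg one_ne_zero
  have hs : ∀ c, 1 ≤ s c := by
    intro c
    by_cases hc : c = 0
    · simp only [s, if_pos hc]; exact ha
    · simp only [s, if_neg hc]; exact hb
  have key := basic_ineq s hs Cl (by rw [h0, h1]; exact hCl) lam k h
  rw [h0, h1] at key
  refine le_of_forall_pos_le_add fun ε hε => ?_
  obtain ⟨C, hC⟩ := exists_nat_gt (((k : ℝ) + 1) / ε)
  have hCpos : (0 : ℝ) < C := lt_trans (by positivity) hC
  have hC1 : 1 ≤ C := by exact_mod_cast hCpos
  have := key C hC1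
  have h2 : ((k : ℝ) + 1) / C ≤ ε := by
    rw [div_le_iff₀ hCpos]
    rw [div_lt_iff₀ hε] at hC
    linarith
  linarith

end Frag
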