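import Pool.Agent.Work.MP_547619_co_h92.Build

/-!
# Connected quasi-line graphs have large buildable sets (MP_547619_co)
(proof due to helper96)
-/

namespace Frag

open SimpleGraph

variable {V : Type*} [DecidableEq V] {G : SimpleGraph V}

/-- A labelling of `W`, constant on edges, with at least `c` values. -/
def Lab (G : SimpleGraph V) (W : Finset V) (c : ℕ) : Prop :=
  ∃ f : V → ℕ, (∀ x ∈ W, ∀ y ∈ W, G.Adj x y → f x = f y) ∧ c ≤ (W.image f).card

omit [DecidableEq V] in
lemma Lab.le_card {W : Finset V} {c : ℕ} (h : Lab G W c) : c ≤ W.card := by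
  obtain ⟨f, _, h2⟩ := h
  exact h2.trans Finset.card_image_le

omit [DecidableEq V] in
lemma Lab.mono {W : Finset V} {c c' : ℕ} (h : Lab G W c) (hc : c' ≤ c) : Lab G W c' := by
  obtain ⟨f, h1, h2⟩ := h
  exact ⟨f, h1, hc.trans h2⟩

/-- Adding an isolated vertex. -/
lemma Lab.fresh {W : Finset V} {c : ℕ} (h : Lab G W c) {v : V} (hv : v ∉ W)
    (hN : ∀ x ∈ W, ¬ G.Adj v x) : Lab G (insert v W) (c + 1) := by
  obtain ⟨f, h1, h2⟩ := h
  obtain ⟨t, ht⟩ : ∃ t : ℕ, t ∉ W.image f := Infinite.exists_notMem_finset _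
  refine ⟨Function.update f v t, ?_, ?_⟩
  · intro x hx y hy hxy
    rw [Finset.mem_insert] at hx hy
    rcases hx with rfl | hx
    · rcases hy with rfl | hy
      · rfl
      · exact absurd hxy (hN y hy)
    · rcases hy with rfl | hy
      · exact absurd hxy.symm (hN x hx)
      · rw [Function.update_of_ne (ne_of_mem_of_not_mem hx hv), Function.update_of_ne
          (ne_of_mem_of_not_mem hy hv)]
        exact h1 x hx y hy hxy
  · have himg : (insert v W).image (Function.update f v t) = insert t (W.image f) := by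
      rw [Finset.image_insert, Function.update_self]
      congr 1
      exact Finset.image_congr fun x hx => Function.update_of_ne (ne_of_mem_of_not_mem hx hv) _ _
    rw [himg, Finset.card_insert_of_notMem ht]
    omega

/-- Adding a vertex all of whose neighbours in `W` have one of two labels, in a closed pair. -/
lemma Lab.merge {W : Finset V} {c : ℕ} (h : Lab G W c) {v : V} (hv : v ∉ W) (Z : Finset V)
    (h1 : CliqueNbr G v Z) (h2 : CliqueNbr G v (W \ Z)) (hZ : Z ⊆ W) :
    Lab G (insert v W) (c - 1) := by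
  classical
  obtain ⟨f, hf1, hf2⟩ := h
  -- labels of the two cliques
  have exlab : ∀ S : Finset V, S ⊆ W → CliqueNbr G v S →
      ∃ t : ℕ, ∀ x ∈ S, G.Adj v x → f x = t := by
    intro S hS hc
    by_cases hne : ∃ x ∈ S, G.Adj v x
    · obtain ⟨x, hx, hvx⟩ := hne
      refine ⟨f x, fun y hy hvy => ?_⟩
      by_cases hxy : y = x
      · rw [hxy]
      · exact hf1 y (hS hy) x (hS hx) (hc y hy x hx hvy hvx hxy)
    · push Not at hne
      exact ⟨0, fun x hx hvx => absurd hvx (hne x hx)⟩
  obtain ⟨t1, ht1⟩ := exlab Z hZ h1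
  obtain ⟨t2, ht2⟩ := exlab (W \ Z) Finset.sdiff_subset h2
  -- merge `t2` into `t1`
  let g : ℕ → ℕ := fun t => if t = t2 then t1 else t
  have hadjlab : ∀ x ∈ W, G.Adj v x → g (f x) = t1 := by
    intro x hx hvx
    by_cases hxZ : x ∈ Z
    · have := ht1 x hxZ hvx
      simp only [g]
      split_ifs with h
      · rfl
      · exact this
    · have := ht2 x (Finset.mem_sdiff.2 ⟨hx, hxZ⟩) hvx
      simp only [g, this, if_true]
  refine ⟨Function.update (fun x => g (f x)) v t1, ?_, ?_⟩
  · intro x hx y hy hxy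
    rw [Finset.mem_insert] at hx hy
    rcases hx with rfl | hx
    · rcases hy with rfl | hy
      · rfl
      · rw [Function.update_self, Function.update_of_ne (ne_of_mem_of_not_mem hy hv)]
        exact (hadjlab y hy hxy).symm
    · rcases hy with rfl | hy
      · rw [Function.update_self, Function.update_of_ne (ne_of_mem_of_not_mem hx hv)]
        exact hadjlab x hx hxy.symm
      · rw [Function.update_of_ne (ne_of_mem_of_not_mem hx hv), Function.update_of_ne
          (ne_of_mem_of_not_mem hy hv)]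
        simp only [hf1 x hx y hy hxy]
  · have hsub : ((W.image f).erase t2) ⊆
        (insert v W).image (Function.update (fun x => g (f x)) v t1) := by
      intro t ht
      rw [Finset.mem_erase, Finset.mem_image] at ht
      obtain ⟨hne, x, hx, rfl⟩ := ht
      rw [Finset.mem_image]
      refine ⟨x, Finset.mem_insert_of_mem hx, ?_⟩
      rw [Function.update_of_ne (ne_of_mem_of_not_mem hx hv)]
      simp only [g, if_neg hne]
    have h3 := Finset.card_le_card hsub
    have h4 := Finset.pred_card_le_card_erase (s := W.image f) (a := t2)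
    omega

/-- Adding a vertex attached to a clique. -/
lemma Lab.attach {W : Finset V} {c : ℕ} (h : Lab G W c) {v : V} (hv : v ∉ W)
    (h1 : CliqueNbr G v W) : Lab G (insert v W) c := by
  classical
  obtain ⟨f, hf1, hf2⟩ := h
  obtain ⟨t, ht⟩ : ∃ t : ℕ, ∀ x ∈ W, G.Adj v x → f x = t := by
    by_cases hne : ∃ x ∈ W, G.Adj v x
    · obtain ⟨x, hx, hvx⟩ := hne
      refine ⟨f x, fun y hy hvy => ?_⟩
      by_cases hxy : y = x
      · rw [hxy]
      · exact hf1 y hy x hx (h1 y hy x hx hvy hvx hxy)
    · push Not at hne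
      exact ⟨0, fun x hx hvx => absurd hvx (hne x hx)⟩
  refine ⟨Function.update f v t, ?_, ?_⟩
  · intro x hx y hy hxy
    rw [Finset.mem_insert] at hx hy
    rcases hx with rfl | hx
    · rcases hy with rfl | hy
      · rfl
      · rw [Function.update_self, Function.update_of_ne (ne_of_mem_of_not_mem hy hv)]
        exact (ht y hy hxy).symm
    · rcases hy with rfl | hy
      · rw [Function.update_self, Function.update_of_ne (ne_of_mem_of_not_mem hx hv)]
        exact ht x hx hxy.symm
      · rw [Function.update_of_ne (ne_of_mem_of_not_mem hx hv), Function.update_of_ne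
          (ne_of_mem_of_not_mem hy hv)]
        exact hf1 x hx y hy hxy
  · refine hf2.trans (Finset.card_le_card ?_)
    intro s hs
    rw [Finset.mem_image] at hs ⊢
    obtain ⟨x, hx, rfl⟩ := hs
    exact ⟨x, Finset.mem_insert_of_mem hx, Function.update_of_ne (ne_of_mem_of_not_mem hx hv) _ _⟩

/-- The maximisation step: in a connected claw-free piece `D` every buildable set with `c` labels
can be traded for a buildable set with `|W| + 1 ≥ |W₁| + c`. -/
theorem exists_large_build (D : Finset V) (hconn : ∀ p : V → Prop, (∀ x ∈ D, ∀ y ∈ D, G.Adj x y → p x → p y) →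
      ∀ x ∈ D, ∀ y ∈ D, p x → p y)
    (hclaw : ∀ v a b c, G.Adj v a → G.Adj v b → G.Adj v c → a ≠ b → a ≠ c → b ≠ c →
      G.Adj a b ∨ G.Adj a c ∨ G.Adj b c)
    (W₁ : Finset V) (hW₁ : W₁ ⊆ D) (hb : Build G ∅ W₁) (c₁ : ℕ) (hl : Lab G W₁ c₁) :
    ∃ W ⊆ D, Build G ∅ W ∧ W₁.card + c₁ ≤ W.card + 1 := by
  classical
  set n := D.card with hn
  obtain ⟨⟨W, c⟩, hmem, hmax⟩ := Finset.exists_max_image
    ((D.powerset ×ˢ Finset.range (n + 1)).filter
      (fun q : Finset V × ℕ => Build G ∅ q.1 ∧ Lab G q.1 q.2))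
    (fun q => (q.1.card + q.2) * (n + 1) + q.1.card)
    ⟨(W₁, c₁), by
      rw [Finset.mem_filter, Finset.mem_product, Finset.mem_powerset, Finset.mem_range]
      exact ⟨⟨hW₁, by have := hl.le_card; have := Finset.card_le_card hW₁; simp only; omega⟩,
        hb, hl⟩⟩
  rw [Finset.mem_filter, Finset.mem_product, Finset.mem_powerset, Finset.mem_range] at hmem
  obtain ⟨⟨hWD, hcn⟩, hbW, hlW⟩ := hmem
  simp only at hWD hcn hbW hlW
  have hmax' : ∀ (W' : Finset V) (c' : ℕ), W' ⊆ D → Build G ∅ W' → Lab G W' c' →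
      (W'.card + c') * (n + 1) + W'.card ≤ (W.card + c) * (n + 1) + W.card := by
    intro W' c' h1 h2 h3
    refine hmax (W', c') ?_
    rw [Finset.mem_filter, Finset.mem_product, Finset.mem_powerset, Finset.mem_range]
    exact ⟨⟨h1, by have := h3.le_card; have := Finset.card_le_card h1; simp only; omega⟩, h2, h3⟩
  -- claim A
  have claimA : ∀ v ∈ D, v ∉ W → ∀ Z ⊆ W, (∀ x ∈ Z, ∀ y ∈ W, y ∉ Z → ¬ G.Adj x y) →
      (∃ x ∈ Z, G.Adj v x) → (∃ y ∈ W, y ∉ Z ∧ G.Adj v y) → False := by
    rintro v hvD hvW Z hZ hZc ⟨x, hx, hvx⟩ ⟨y, hy, hyZ, hvy⟩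
    have c1 : CliqueNbr G v Z := by
      intro a ha b hb' hva hvb hab
      rcases hclaw v a b y hva hvb hvy hab (fun h => hyZ (h ▸ ha)) (fun h => hyZ (h ▸ hb'))
        with h | h | h
      · exact h
      · exact absurd h (hZc a ha y hy hyZ)
      · exact absurd h (hZc b hb' y hy hyZ)
    have c2 : CliqueNbr G v (W \ Z) := by
      intro a ha b hb' hva hvb hab
      rw [Finset.mem_sdiff] at ha hb'
      rcases hclaw v a b x hva hvb hvx hab (fun h => ha.2 (h ▸ hx)) (fun h => hb'.2 (h ▸ hx))
        with h | h | h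
      · exact h
      · exact absurd h.symm (hZc x hx a ha.1 ha.2)
      · exact absurd h.symm (hZc x hx b hb'.1 hb'.2)
    have hb2 := hbW.join hvW hZ hZc c1 c2
    have hl2 := hlW.merge hvW Z c1 c2 hZ
    have h3 := hmax' _ _ (Finset.insert_subset hvD hWD) hb2 hl2
    rw [Finset.card_insert_of_notMem hvW] at h3
    have h4 : W.card + c ≤ W.card + 1 + (c - 1) := by omega
    have h5 : (W.card + c) * (n + 1) ≤ (W.card + 1 + (c - 1)) * (n + 1) :=
      Nat.mul_le_mul_right _ h4
    omega
  -- claim B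
  have claimB : ∀ v ∈ D, v ∉ W → ¬ CliqueNbr G v W := by
    intro v hvD hvW hc
    have h3 := hmax' _ _ (Finset.insert_subset hvD hWD) (Build.step hbW hvW hc)
      (hlW.attach hvW hc)
    rw [Finset.card_insert_of_notMem hvW] at h3
    have h5 : (W.card + c) * (n + 1) ≤ (W.card + 1 + c) * (n + 1) :=
      Nat.mul_le_mul_right _ (by omega)
    omega
  -- `c ≤ 1`
  have hc1 : c ≤ 1 := by
    obtain ⟨f, hf1, hf2⟩ := hlW
    by_contra hcon
    have h2 : 1 < (W.image f).card := by omega
    obtain ⟨s, hs, t, ht, hst⟩ := Finset.one_lt_card.1 h2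
    rw [Finset.mem_image] at hs ht
    obtain ⟨x, hx, rfl⟩ := hs
    obtain ⟨y, hy, rfl⟩ := ht
    set Z : Finset V := W.filter (fun u => f u = f x) with hZ
    have hZW : Z ⊆ W := Finset.filter_subset _ _
    have hZc : ∀ a ∈ Z, ∀ b ∈ W, b ∉ Z → ¬ G.Adj a b := by
      intro a ha b hb' hbZ hab
      rw [hZ, Finset.mem_filter] at ha
      apply hbZ
      rw [hZ, Finset.mem_filter]
      exact ⟨hb', (hf1 a ha.1 b hb' hab).symm.trans ha.2⟩
    let p : V → Prop := fun v => v ∈ Z ∨ (v ∉ W ∧ ∃ z ∈ Z, G.Adj v z)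
    have hp : ∀ a ∈ D, ∀ b ∈ D, G.Adj a b → p a → p b := by
      intro a ha b hb' hab hpa
      by_cases hbW' : b ∈ W
      · left
        by_contra hbZ
        rcases hpa with haZ | ⟨haW, haz⟩
        · exact hZc a haZ b hbW' hbZ hab
        · exact claimA a ha haW Z hZW hZc haz ⟨b, hbW', hbZ, hab⟩
      · right
        refine ⟨hbW', ?_⟩
        rcases hpa with haZ | ⟨haW, haz⟩
        · exact ⟨a, haZ, hab.symm⟩
        · by_contra hno
          push Not at hno
          have hB := claimB a ha haW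
          unfold CliqueNbr at hB
          push Not at hB
          obtain ⟨u, hu, w, hw, hau, haw, huw, hnadj⟩ := hB
          have huZ : u ∈ Z := by
            by_contra h
            exact claimA a ha haW Z hZW hZc haz ⟨u, hu, h, hau⟩
          have hwZ : w ∈ Z := by
            by_contra h
            exact claimA a ha haW Z hZW hZc haz ⟨w, hw, h, haw⟩
          rcases hclaw a u w b hau haw hab huw (fun h => hbW' (h ▸ hu)) (fun h => hbW' (h ▸ hw))
            with h | h | h
          · exact hnadj h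
          · exact hno u huZ h.symm
          · exact hno w hwZ h.symm
    have hpx : p x := Or.inl (by rw [hZ, Finset.mem_filter]; exact ⟨hx, rfl⟩)
    have hpy := hconn p hp x (hWD hx) y (hWD hy) hpx
    rcases hpy with h | ⟨h, _⟩
    · rw [hZ, Finset.mem_filter] at h
      exact hst h.2.symm
    · exact h hy
  refine ⟨W, hWD, hbW, ?_⟩
  have h3 := hmax' W₁ c₁ hW₁ hb hl
  have hWn : W.card ≤ n := Finset.card_le_card hWD
  have h4 : W₁.card + c₁ ≤ W.card + c := by
    by_contra hcon
    have h5 : (W.card + c + 1) * (n + 1) ≤ (W₁.card + c₁) * (n + 1) :=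
      Nat.mul_le_mul_right _ (by omega)
    have h6 : (W.card + c + 1) * (n + 1) = (W.card + c) * (n + 1) + (n + 1) := by ring
    omega
  omega

end Frag
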