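import Pool.Agent.Work.MP_547619_co_h92.Max

/-!
# Random orders (MP_547619_co)
-/

namespace Frag

open SimpleGraph

/-- Number of orders in which `v` comes before all elements of `S`. -/
theorem card_first {n : ℕ} (S : Finset (Fin n)) (v : Fin n) (hv : v ∉ S) :
    (Finset.univ.filter (fun σ : Equiv.Perm (Fin n) => ∀ u ∈ S, σ v < σ u)).card * (S.card + 1)
      = n.factorial := by
  classical
  set T := insert v S with hT
  let N : Fin n → Finset (Equiv.Perm (Fin n)) := fun x =>
    Finset.univ.filter (fun σ => ∀ u ∈ T, u ≠ x → σ x < σ u)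
  have hvT : v ∈ T := Finset.mem_insert_self _ _
  have hNv : N v = Finset.univ.filter (fun σ : Equiv.Perm (Fin n) => ∀ u ∈ S, σ v < σ u) := by
    ext σ
    simp only [N, Finset.mem_filter, Finset.mem_univ, true_and]
    constructor
    · intro h u hu
      exact h u (Finset.mem_insert_of_mem hu) (ne_of_mem_of_not_mem hu hv)
    · intro h u hu huv
      rw [hT, Finset.mem_insert] at hu
      exact h u (hu.resolve_left huv)
  have hcard : ∀ x ∈ T, (N x).card = (N v).card := by
    intro x hx
    refine Finset.card_equiv (Equiv.mulRight (Equiv.swap x v)) ?_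
    intro σ
    simp only [N, Finset.mem_filter, Finset.mem_univ, true_and, Equiv.coe_mulRight,
      Equiv.Perm.coe_mul, Function.comp_apply, Equiv.swap_apply_right]
    constructor
    · intro h u hu huv
      by_cases hux : u = x
      · subst hux
        rw [Equiv.swap_apply_left]
        exact h v hvT (Ne.symm huv)
      · rw [Equiv.swap_apply_of_ne_of_ne hux huv]
        exact h u hu hux
    · intro h u hu hux
      by_cases huv : u = v
      · subst huv
        have := h x hx (Ne.symm hux)
        rwa [Equiv.swap_apply_left] at this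
      · have := h u hu huv
        rwa [Equiv.swap_apply_of_ne_of_ne hux huv] at this
  have hcover : (Finset.univ : Finset (Equiv.Perm (Fin n))) = T.biUnion N := by
    ext σ
    simp only [Finset.mem_univ, true_iff, Finset.mem_biUnion]
    obtain ⟨x, hx, hmin⟩ := Finset.exists_min_image T σ ⟨v, hvT⟩
    refine ⟨x, hx, ?_⟩
    simp only [N, Finset.mem_filter, Finset.mem_univ, true_and]
    intro u hu hux
    exact lt_of_le_of_ne (hmin u hu) (fun h => hux (σ.injective h).symm)
  have hdisj : (T : Set (Fin n)).PairwiseDisjoint N := by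
    intro x hx y hy hxy
    rw [Function.onFun, Finset.disjoint_left]
    intro σ h1 h2
    simp only [N, Finset.mem_filter, Finset.mem_univ, true_and] at h1 h2
    exact absurd (h1 y hy (Ne.symm hxy)) (not_lt.2 (h2 x hx hxy).le)
  have h := congrArg Finset.card hcover
  rw [Finset.card_biUnion hdisj, Finset.sum_congr rfl hcard, Finset.sum_const, smul_eq_mul,
    Finset.card_univ, Fintype.card_perm, Fintype.card_fin, hT,
    Finset.card_insert_of_notMem hv] at h
  rw [← hNv, h]
  ring

/-- The buildable set given by an order. -/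
theorem order_build {n : ℕ} (G : SimpleGraph (Fin n)) (D : Finset (Fin n))
    (σ : Equiv.Perm (Fin n)) (A B : Fin n → Finset (Fin n))
    (hA : ∀ v ∈ D, ∀ x ∈ A v, ∀ y ∈ A v, x ≠ y → G.Adj x y)
    (hB : ∀ v ∈ D, ∀ x ∈ B v, ∀ y ∈ B v, x ≠ y → G.Adj x y)
    (hN : ∀ v ∈ D, ∀ u, G.Adj v u → u ∈ A v ∨ u ∈ B v) :
    ∃ W₁ ⊆ D, ∃ c₁, Build G ∅ W₁ ∧ Lab G W₁ c₁ ∧
      (D.filter (fun v => ∀ u ∈ A v, σ v < σ u)).card
        + (D.filter (fun v => ∀ u ∈ B v, σ v < σ u)).card ≤ W₁.card + c₁ := by
  classical
  have key : ∀ j ≤ n, ∃ W₁ ⊆ D.filter (fun v => (σ v : ℕ) < j), ∃ c₁, Build G ∅ W₁ ∧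
      Lab G W₁ c₁ ∧
      (D.filter (fun v => (σ v : ℕ) < j ∧ ∀ u ∈ A v, σ v < σ u)).card
        + (D.filter (fun v => (σ v : ℕ) < j ∧ ∀ u ∈ B v, σ v < σ u)).card ≤ W₁.card + c₁ := by
    intro j
    induction j with
    | zero =>
      intro _
      refine ⟨∅, Finset.empty_subset _, 0, Build.base, ⟨fun _ => 0, by simp, by simp⟩, ?_⟩
      simp
    | succ j ih =>
      intro hj
      obtain ⟨W, hWD, c, hb, hl, hcount⟩ := ih (by omega)
      set v : Fin n := σ.symm ⟨j, by omega⟩ with hv
      have hσv : (σ v : ℕ) = j := by rw [hv, Equiv.apply_symm_apply]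
      have hlt : ∀ u, (σ u : ℕ) < j + 1 ↔ (σ u : ℕ) < j ∨ u = v := by
        intro u
        constructor
        · intro h
          rcases Nat.lt_succ_iff_lt_or_eq.1 h with h | h
          · exact Or.inl h
          · right
            rw [hv, Equiv.eq_symm_apply]
            exact Fin.ext h
        · rintro (h | h)
          · omega
          · rw [h, hσv]; omega
      have hvW : v ∉ W := by
        intro h
        have := (Finset.mem_filter.1 (hWD h)).2
        omega
      have hWlt : ∀ u ∈ W, σ u < σ v := by
        intro u hu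
        have := (Finset.mem_filter.1 (hWD hu)).2
        rw [Fin.lt_def, hσv]
        exact this
      have hWD' : W ⊆ D.filter (fun v => (σ v : ℕ) < j + 1) := by
        intro u hu
        have := Finset.mem_filter.1 (hWD hu)
        rw [Finset.mem_filter]
        exact ⟨this.1, by omega⟩
      -- the change of the count
      have hcnt : ∀ S : Fin n → Finset (Fin n),
          (D.filter (fun v => (σ v : ℕ) < j + 1 ∧ ∀ u ∈ S v, σ v < σ u)).card
          ≤ (D.filter (fun v => (σ v : ℕ) < j ∧ ∀ u ∈ S v, σ v < σ u)).card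
            + (if v ∈ D ∧ ∀ u ∈ S v, σ v < σ u then 1 else 0) := by
        intro S
        split_ifs with h
        · refine (Finset.card_le_card ?_).trans (Finset.card_insert_le v _)
          intro u hu
          rw [Finset.mem_filter, hlt] at hu
          rw [Finset.mem_insert, Finset.mem_filter]
          rcases hu.2.1 with h' | h'
          · exact Or.inr ⟨hu.1, h', hu.2.2⟩
          · exact Or.inl h'
        · rw [add_zero]
          refine Finset.card_le_card ?_
          intro u hu
          rw [Finset.mem_filter, hlt] at hu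
          rw [Finset.mem_filter]
          rcases hu.2.1 with h' | h'
          · exact ⟨hu.1, h', hu.2.2⟩
          · exact absurd ⟨h' ▸ hu.1, h' ▸ hu.2.2⟩ h
      have hA' := hcnt A
      have hB' := hcnt B
      by_cases hvD : v ∈ D
      · have hins : insert v W ⊆ D.filter (fun v => (σ v : ℕ) < j + 1) := by
          refine Finset.insert_subset ?_ hWD'
          rw [Finset.mem_filter]
          exact ⟨hvD, by omega⟩
        by_cases h1 : ∀ u ∈ A v, σ v < σ u
        · by_cases h2 : ∀ u ∈ B v, σ v < σ u
          · -- isolated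
            have hiso : ∀ x ∈ W, ¬ G.Adj v x := by
              intro x hx hvx
              have hlt := hWlt x hx
              rcases hN v hvD x hvx with h | h
              · exact absurd (h1 x h) (not_lt.2 hlt.le)
              · exact absurd (h2 x h) (not_lt.2 hlt.le)
            refine ⟨insert v W, hins, c + 1,
              Build.step hb hvW (fun x hx _ _ hvx => absurd hvx (hiso x hx)),
              hl.fresh hvW hiso, ?_⟩
            rw [if_pos ⟨hvD, h1⟩] at hA'
            rw [if_pos ⟨hvD, h2⟩] at hB'
            rw [Finset.card_insert_of_notMem hvW]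
            omega
          · have hc : CliqueNbr G v W := by
              intro x hx y hy hvx hvy hxy
              have hx' : x ∈ B v := (hN v hvD x hvx).resolve_left
                (fun h => absurd (h1 x h) (not_lt.2 (hWlt x hx).le))
              have hy' : y ∈ B v := (hN v hvD y hvy).resolve_left
                (fun h => absurd (h1 y h) (not_lt.2 (hWlt y hy).le))
              exact hB v hvD x hx' y hy' hxy
            refine ⟨insert v W, hins, c, Build.step hb hvW hc, hl.attach hvW hc, ?_⟩
            rw [if_pos ⟨hvD, h1⟩] at hA'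
            rw [if_neg (fun h => h2 h.2)] at hB'
            rw [Finset.card_insert_of_notMem hvW]
            omega
        · by_cases h2 : ∀ u ∈ B v, σ v < σ u
          · have hc : CliqueNbr G v W := by
              intro x hx y hy hvx hvy hxy
              have hx' : x ∈ A v := (hN v hvD x hvx).resolve_right
                (fun h => absurd (h2 x h) (not_lt.2 (hWlt x hx).le))
              have hy' : y ∈ A v := (hN v hvD y hvy).resolve_right
                (fun h => absurd (h2 y h) (not_lt.2 (hWlt y hy).le))
              exact hA v hvD x hx' y hy' hxy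
            refine ⟨insert v W, hins, c, Build.step hb hvW hc, hl.attach hvW hc, ?_⟩
            rw [if_neg (fun h => h1 h.2)] at hA'
            rw [if_pos ⟨hvD, h2⟩] at hB'
            rw [Finset.card_insert_of_notMem hvW]
            omega
          · refine ⟨W, hWD', c, hb, hl, ?_⟩
            rw [if_neg (fun h => h1 h.2)] at hA'
            rw [if_neg (fun h => h2 h.2)] at hB'
            omega
      · refine ⟨W, hWD', c, hb, hl, ?_⟩
        rw [if_neg (fun h => hvD h.1)] at hA' hB'
        omega
  obtain ⟨W, hWD, c, hb, hl, hcount⟩ := key n le_rfl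
  refine ⟨W, hWD.trans (Finset.filter_subset _ _), c, hb, hl, ?_⟩
  have e : ∀ S : Fin n → Finset (Fin n),
      D.filter (fun v => (σ v : ℕ) < n ∧ ∀ u ∈ S v, σ v < σ u)
        = D.filter (fun v => ∀ u ∈ S v, σ v < σ u) := by
    intro S
    refine Finset.filter_congr fun v _ => ?_
    simp only [(σ v).2, true_and]
  rw [e A, e B] at hcount
  exact hcount

/-- The averaged bound. -/
theorem exists_order {n : ℕ} (D : Finset (Fin n)) (A B : Fin n → Finset (Fin n))
    (hvA : ∀ v ∈ D, v ∉ A v) (hvB : ∀ v ∈ D, v ∉ B v) :
    ∃ σ : Equiv.Perm (Fin n),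
      ∑ v ∈ D, (1 / (((A v).card : ℝ) + 1) + 1 / (((B v).card : ℝ) + 1)) ≤
      ((D.filter (fun v => ∀ u ∈ A v, σ v < σ u)).card : ℝ)
        + ((D.filter (fun v => ∀ u ∈ B v, σ v < σ u)).card : ℝ) := by
  classical
  -- sum over all orders
  have hsum : ∀ S : Fin n → Finset (Fin n), (∀ v ∈ D, v ∉ S v) →
      ∑ σ : Equiv.Perm (Fin n), ((D.filter (fun v => ∀ u ∈ S v, σ v < σ u)).card : ℝ)
        = (n.factorial : ℝ) * ∑ v ∈ D, 1 / (((S v).card : ℝ) + 1) := by
    intro S hS
    have h1 : ∀ σ : Equiv.Perm (Fin n),
        ((D.filter (fun v => ∀ u ∈ S v, σ v < σ u)).card : ℝ)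
          = ∑ v ∈ D, if (∀ u ∈ S v, σ v < σ u) then (1 : ℝ) else 0 := by
      intro σ
      rw [Finset.sum_boole]
    simp_rw [h1]
    rw [Finset.sum_comm, Finset.mul_sum]
    refine Finset.sum_congr rfl fun v hv => ?_
    rw [Finset.sum_boole]
    have h2 := card_first (S v) v (hS v hv)
    have h3 : (0 : ℝ) < ((S v).card : ℝ) + 1 := by positivity
    rw [mul_one_div, eq_div_iff h3.ne']
    exact_mod_cast h2
  by_contra hcon
  push Not at hcon
  have h1 : ∑ σ : Equiv.Perm (Fin n),
      (((D.filter (fun v => ∀ u ∈ A v, σ v < σ u)).card : ℝ)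
        + ((D.filter (fun v => ∀ u ∈ B v, σ v < σ u)).card : ℝ))
      < ∑ σ : Equiv.Perm (Fin n),
        ∑ v ∈ D, (1 / (((A v).card : ℝ) + 1) + 1 / (((B v).card : ℝ) + 1)) :=
    Finset.sum_lt_sum_of_nonempty Finset.univ_nonempty (fun σ _ => hcon σ)
  rw [Finset.sum_add_distrib, hsum A hvA, hsum B hvB, Finset.sum_const, Finset.card_univ,
    Fintype.card_perm, Fintype.card_fin, nsmul_eq_mul, Finset.sum_add_distrib, mul_add] at h1
  exact lt_irrefl _ h1

end Frag
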