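import Mathlib

/-!
# Point systems without short alternating closed walks (MP_547619_co)

A system is a map `f : ZMod 2 → V → P`: every point `v` lies on the line `f 0 v` of type `0` and on the
line `f 1 v` of type `1`.
-/

namespace Frag

/-- `w` is an alternating walk of length `n` whose first step is of type `t`. -/
def AltWalk {V P : Type*} (f : ZMod 2 → V → P) (t : ZMod 2) (n : ℕ) (w : ℕ → V) : Prop :=
  ∀ i < n, w i ≠ w (i + 1) ∧ f (t + (i : ZMod 2)) (w i) = f (t + (i : ZMod 2)) (w (i + 1))

/-- No alternating closed walk of length between `1` and `L`. -/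
def NoClosed {V P : Type*} (f : ZMod 2 → V → P) (L : ℕ) : Prop :=
  ∀ (t : ZMod 2) (n : ℕ) (w : ℕ → V), 1 ≤ n → n ≤ L → AltWalk f t n w → w n ≠ w 0

/-- The lift of a system. -/
def lift {V P : Type*} [DecidableEq V] (f : ZMod 2 → V → P) :
    ZMod 2 → (V × (V → ZMod 2)) → (P × (V → ZMod 2)) :=
  fun c v => (f c v.1, v.2 + Pi.single v.1 c)

lemma altWalk_mono {V P : Type*} {f : ZMod 2 → V → P} {t : ZMod 2} {n m : ℕ} {w : ℕ → V}
    (h : AltWalk f t n w) (hm : m ≤ n) : AltWalk f t m w :=
  fun i hi => h i (lt_of_lt_of_le hi hm)

lemma altWalk_shift {V P : Type*} {f : ZMod 2 → V → P} {t : ZMod 2} {n k : ℕ} {w : ℕ → V}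
    (h : AltWalk f t n w) : AltWalk f (t + (k : ZMod 2)) (n - k) (fun i => w (k + i)) := by
  intro i hi
  have := h (k + i) (by omega)
  refine ⟨this.1, ?_⟩
  have h2 := this.2
  rw [show t + (k : ZMod 2) + (i : ZMod 2) = t + ((k + i : ℕ) : ZMod 2) by push_cast; ring]
  exact h2

lemma altWalk_proj {V P : Type*} [DecidableEq V] {f : ZMod 2 → V → P} {t : ZMod 2} {n : ℕ}
    {w : ℕ → V × (V → ZMod 2)}
    (h : AltWalk (lift f) t n w) : AltWalk f t n (fun i => (w i).1) := by
  intro i hi
  obtain ⟨h1, h2⟩ := h i hi
  have h3 : f (t + (i : ZMod 2)) (w i).1 = f (t + (i : ZMod 2)) (w (i+1)).1 :=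
    congrArg Prod.fst h2
  have h4 : (w i).2 + Pi.single (w i).1 (t + (i : ZMod 2))
      = (w (i+1)).2 + Pi.single (w (i+1)).1 (t + (i : ZMod 2)) := congrArg Prod.snd h2
  refine ⟨fun he => h1 ?_, h3⟩
  have he' : (w i).1 = (w (i+1)).1 := he
  rw [he'] at h4
  exact Prod.ext he' (add_right_cancel h4)

/-- The key step: the lift of a system without alternating closed walks of length `≤ L` has none of
length `≤ L + 1`. -/
theorem noClosed_lift {V P : Type*} [DecidableEq V] {f : ZMod 2 → V → P} {L : ℕ}
    (hf : NoClosed f L) : NoClosed (lift f) (L + 1) := by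
  intro t n w hn hnL hw hclosed
  have hp := altWalk_proj hw
  have hc : (w n).1 = (w 0).1 := congrArg Prod.fst hclosed
  rcases Nat.lt_or_ge n (L + 1) with hlt | hge
  · exact hf t n _ hn (by omega) hp hc
  have hnL' : n = L + 1 := le_antisymm hnL hge
  set v : ℕ → V := fun i => (w i).1 with hv
  -- prefixes are not closed
  have hpre : ∀ i, 1 ≤ i → i < n → v i ≠ v 0 := by
    intro i hi hin
    exact hf t i v hi (by omega) (altWalk_mono hp hin.le)
  rcases Nat.even_or_odd n with heven | hodd
  · -- even case: the coordinate of `v 0`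
    have hne2 : 2 ≤ n := by
      rcases heven with ⟨r, hr⟩; omega
    -- coordinate
    have hstep : ∀ i < n, (w i).2 (v 0) + (Pi.single (v i) (t + (i : ZMod 2)) : V → ZMod 2) (v 0)
        = (w (i+1)).2 (v 0) + (Pi.single (v (i+1)) (t + (i : ZMod 2)) : V → ZMod 2) (v 0) := by
      intro i hi
      have h4 : (w i).2 + Pi.single (w i).1 (t + (i : ZMod 2))
        = (w (i+1)).2 + Pi.single (w (i+1)).1 (t + (i : ZMod 2)) := congrArg Prod.snd (hw i hi).2
      have := congrFun h4 (v 0)
      simpa using this
    have hind : ∀ i, 1 ≤ i → i ≤ n - 1 → (w i).2 (v 0) = (w 0).2 (v 0) + t := by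
      intro i hi
      induction i, hi using Nat.le_induction with
      | base =>
        intro h1
        have h := hstep 0 (by omega)
        have h2 : v (0 + 1) ≠ v 0 := hpre 1 le_rfl (by omega)
        rw [Pi.single_eq_same, Pi.single_eq_of_ne (Ne.symm h2)] at h
        simpa using h.symm
      | succ i hi ih =>
        intro h1
        have h := hstep i (by omega)
        have h2 : v i ≠ v 0 := hpre i hi (by omega)
        have h3 : v (i + 1) ≠ v 0 := hpre (i+1) (by omega) (by omega)
        rw [Pi.single_eq_of_ne (Ne.symm h2), Pi.single_eq_of_ne (Ne.symm h3)] at h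
        rw [add_zero, add_zero] at h
        rw [← h]
        exact ih (by omega)
    have hl := hind (n-1) (by omega) le_rfl
    have h := hstep (n-1) (by omega)
    have hn1 : n - 1 + 1 = n := by omega
    rw [hn1] at h
    have h2 : v (n-1) ≠ v 0 := hpre (n-1) (by omega) (by omega)
    have hvn : v n = v 0 := hc
    rw [Pi.single_eq_of_ne (Ne.symm h2), hvn, Pi.single_eq_same, hl, hclosed, add_zero] at h
    have hcast : ((n - 1 : ℕ) : ZMod 2) = 1 := by
      rcases heven with ⟨r, hr⟩
      have : n - 1 = 2 * (r - 1) + 1 := by omega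
      rw [this]
      push_cast
      have h20 : (2 : ZMod 2) = 0 := rfl
      rw [h20]; ring
    rw [hcast] at h
    have h5 : t = t + 1 := add_left_cancel h
    have h6 : (1 : ZMod 2) = 0 := by
      have := h5
      exact (add_eq_left.mp this.symm)
    exact one_ne_zero h6
  · -- odd case
    obtain ⟨r, hr⟩ := hodd
    rcases Nat.eq_zero_or_pos r with hr0 | hrpos
    · subst hr0
      have hn1 : n = 1 := by omega
      subst hn1
      exact (hp 0 (by omega)).1 hc.symm
    · -- remove the first point
      have h1n : v 1 ≠ v (n-1) := by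
        have hs := altWalk_shift (k := 1) hp
        have hs' := altWalk_mono hs (m := n - 2) (by omega)
        have := hf (t + ((1:ℕ) : ZMod 2)) (n-2) _ (by omega) (by omega) hs'
        intro h
        apply this
        show v (1 + (n - 2)) = v (1 + 0)
        rw [show 1 + (n-2) = n - 1 by omega]
        exact h.symm
      -- closed walk `v 1, ..., v (n-1), v 1`
      let u : ℕ → V := fun i => if i < n - 1 then v (1 + i) else v 1
      have hu : AltWalk f (t + 1) (n - 1) u := by
        intro i hi
        rcases Nat.lt_or_ge (i+1) (n-1) with h | h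
        · have e1 : u i = v (1 + i) := if_pos hi
          have e2 : u (i + 1) = v (1 + (i + 1)) := if_pos h
          rw [e1, e2]
          have := hp (1 + i) (by omega)
          rw [show t + 1 + (i : ZMod 2) = t + ((1 + i : ℕ) : ZMod 2) by push_cast; ring]
          rw [show 1 + (i + 1) = (1 + i) + 1 by ring]
          exact this
        · have hi' : i = n - 2 := by omega
          have e1 : u i = v (n - 1) := by
            have : u i = v (1 + i) := if_pos hi
            rw [this]; congr 1; omega
          have e2 : u (i + 1) = v 1 := if_neg (by omega)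
          rw [e1, e2]
          refine ⟨fun h => h1n h.symm, ?_⟩
          -- type of the step is `t`
          have ht : t + 1 + (i : ZMod 2) = t := by
            have : i = 2 * (r - 1) + 1 := by omega
            rw [this]
            push_cast
            have h20 : (2 : ZMod 2) = 0 := rfl
            rw [h20]
            have h11 : (1 : ZMod 2) + 1 = 0 := rfl
            rw [zero_mul, zero_add, add_assoc, h11, add_zero]
          rw [ht]
          have ha := (hp (n-1) (by omega)).2
          have hb := (hp 0 (by omega)).2
          rw [show n - 1 + 1 = n by omega] at ha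
          have hcast : ((n - 1 : ℕ) : ZMod 2) = 0 := by
            have : n - 1 = 2 * r := by omega
            rw [this]
            push_cast
            have h20 : (2 : ZMod 2) = 0 := rfl
            rw [h20, zero_mul]
          rw [hcast] at ha
          simp only [Nat.cast_zero, add_zero, zero_add] at ha hb
          have hvn : v n = v 0 := hc
          calc f t (v (n-1)) = f t (v n) := ha
            _ = f t (v 0) := by rw [hvn]
            _ = f t (v 1) := hb
      refine hf (t+1) (n-1) u (by omega) (by omega) hu ?_
      have e0 : u 0 = v 1 := if_pos (by omega)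
      have e1 : u (n-1) = v 1 := if_neg (by omega)
      rw [e0, e1]

/-- Number of points on lines in the lift. -/
lemma ncard_lift {V P : Type*} [DecidableEq V] (f : ZMod 2 → V → P) (c : ZMod 2)
    (v : V × (V → ZMod 2)) :
    {u | lift f c u = lift f c v}.ncard = {u | f c u = f c v.1}.ncard := by
  have himg : {u | lift f c u = lift f c v}
      = (fun u : V => (u, v.2 + Pi.single v.1 c - Pi.single u c)) '' {u | f c u = f c v.1} := by
    ext u
    simp only [Set.mem_ofPred_eq, Set.mem_image, lift, Prod.mk.injEq]
    constructor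
    · rintro ⟨h1, h2⟩
      refine ⟨u.1, h1, ?_⟩
      rw [← h2]
      ext
      · rfl
      · simp
    · rintro ⟨x, hx, rfl⟩
      exact ⟨hx, by simp⟩
  rw [himg, Set.ncard_image_of_injective]
  intro x y hxy
  exact congrArg Prod.fst hxy

/-- Systems with prescribed line sizes and without alternating closed walks of length `≤ L`. -/
theorem exists_system (s : ZMod 2 → ℕ) (hs : ∀ c, 1 ≤ s c) (L : ℕ) :
    ∃ (V P : Type) (_ : Fintype V) (_ : DecidableEq V) (_ : Nonempty V) (f : ZMod 2 → V → P),
      NoClosed f L ∧ ∀ c v, {u | f c u = f c v}.ncard = s c := by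
  induction L with
  | zero =>
    have h0 : 0 < s 0 := hs 0
    have h1 : 0 < s 1 := hs 1
    refine ⟨Fin (s 0) × Fin (s 1), ℕ, inferInstance, inferInstance, ⟨(⟨0, h0⟩, ⟨0, h1⟩)⟩,
      fun c u => if c = 0 then u.2 else u.1, ?_, ?_⟩
    · intro t n w hn hn0
      omega
    · intro c v
      obtain rfl | rfl : c = 0 ∨ c = 1 := by
        fin_cases c
        · left; rfl
        · right; rfl
      · have himg : {u : Fin (s 0) × Fin (s 1) | (if (0 : ZMod 2) = 0 then (u.2 : ℕ) else u.1)
            = (if (0 : ZMod 2) = 0 then (v.2 : ℕ) else v.1)}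
            = (fun x : Fin (s 0) => (x, v.2)) '' Set.univ := by
          ext u
          simp only [if_true, Set.mem_ofPred_eq, Set.image_univ, Set.mem_range]
          constructor
          · intro h
            exact ⟨u.1, Prod.ext rfl (Fin.ext h.symm)⟩
          · rintro ⟨x, rfl⟩
            rfl
        rw [himg, Set.ncard_image_of_injective _ (fun x y h => congrArg Prod.fst h)]
        simp
      · have himg : {u : Fin (s 0) × Fin (s 1) | (if (1 : ZMod 2) = 0 then (u.2 : ℕ) else u.1)
            = (if (1 : ZMod 2) = 0 then (v.2 : ℕ) else v.1)}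
            = (fun x : Fin (s 1) => (v.1, x)) '' Set.univ := by
          ext u
          have h10 : ¬ ((1 : ZMod 2) = 0) := one_ne_zero
          simp only [if_neg h10, Set.mem_ofPred_eq, Set.image_univ, Set.mem_range]
          constructor
          · intro h
            exact ⟨u.2, Prod.ext (Fin.ext h.symm) rfl⟩
          · rintro ⟨x, rfl⟩
            rfl
        rw [himg, Set.ncard_image_of_injective _ (fun x y h => congrArg Prod.snd h)]
        simp
  | succ L ih =>
    obtain ⟨V, P, hF, hD, hN, f, hf, hcard⟩ := ih
    refine ⟨V × (V → ZMod 2), P × (V → ZMod 2), inferInstance, inferInstance, inferInstance,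
      lift f, noClosed_lift hf, ?_⟩
    intro c v
    rw [ncard_lift]
    exact hcard c v.1

end Frag
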