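import Pool.Agent.Work.MP_547619_co_h92.Orders
import Pool.Agent.Work.MP_547619_co_h92.Lower

/-!
# The exact coefficient of fragmentability of quasi-line graphs (MP_547619_co)
-/

namespace Frag

open SimpleGraph

lemma recip_aux (P Q x0 x1 : ℕ) (hP : 1 ≤ P) (hQ : 1 ≤ Q) (hPQ : P ≤ Q)
    (h : P + Q ≤ x0 + x1) (h1 : x0 ≤ x1) (h2 : x1 ≤ x0 + 1) :
    1 / (x0 : ℝ) + 1 / (x1 : ℝ) ≤ 1 / (P : ℝ) + 1 / (Q : ℝ) := by
  have hPx : P ≤ x0 := by omega
  obtain ⟨t, ht⟩ := Nat.exists_eq_add_of_le hPx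
  have hQt : Q ≤ x1 + t := by omega
  have hP' : (0 : ℝ) < P := by exact_mod_cast hP
  have hQ' : (0 : ℝ) < Q := by exact_mod_cast hQ
  have hx0 : (0 : ℝ) < x0 := by exact_mod_cast (show 0 < x0 by omega)
  have hx1 : (0 : ℝ) < x1 := by exact_mod_cast (show 0 < x1 by omega)
  have ht0 : (0 : ℝ) ≤ t := Nat.cast_nonneg t
  have hx1t : (0 : ℝ) < (x1 : ℝ) + t := by linarith
  have e1 : 1 / ((x1 : ℝ) + t) ≤ 1 / (Q : ℝ) := by
    apply one_div_le_one_div_of_le hQ'
    exact_mod_cast hQt
  have e2 : 1 / (x0 : ℝ) + 1 / (x1 : ℝ) ≤ 1 / (P : ℝ) + 1 / ((x1 : ℝ) + t) := by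
    have hx : (x0 : ℝ) = P + t := by exact_mod_cast ht
    have hle : (P : ℝ) + t ≤ x1 := by rw [← hx]; exact_mod_cast h1
    rw [hx, div_add_div _ _ (by linarith) hx1.ne', div_add_div _ _ hP'.ne' hx1t.ne',
      div_le_div_iff₀ (by positivity) (by positivity)]
    have h3 : (P : ℝ) * ((x1 : ℝ) + t) ≤ ((P : ℝ) + t) * x1 := by nlinarith
    nlinarith [mul_le_mul_of_nonneg_left h3 (show (0 : ℝ) ≤ (P : ℝ) + t + x1 by linarith)]
  linarith

lemma recip_ineq (P Q x0 x1 : ℕ) (hP : 1 ≤ P) (hQ : 1 ≤ Q)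
    (h : P + Q ≤ x0 + x1) (h1 : x0 ≤ x1) (h2 : x1 ≤ x0 + 1) :
    1 / (x0 : ℝ) + 1 / (x1 : ℝ) ≤ 1 / (P : ℝ) + 1 / (Q : ℝ) := by
  rcases Nat.le_total P Q with hle | hle
  · exact recip_aux P Q x0 x1 hP hQ hle h h1 h2
  · rw [add_comm (1 / (P : ℝ))]
    exact recip_aux Q P x0 x1 hQ hP hle (by omega) h1 h2

/-- Quasi-line graphs are claw-free. -/
lemma quasiLine_clawFree {d n : ℕ} {G : SimpleGraph (Fin n)} (hG : quasiLineClass d n G) :
    ∀ v a b c, G.Adj v a → G.Adj v b → G.Adj v c → a ≠ b → a ≠ c → b ≠ c →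
      G.Adj a b ∨ G.Adj a c ∨ G.Adj b c := by
  intro v a b c hva hvb hvc hab hac hbc
  obtain ⟨A, B, hA, hB, hN⟩ := hG.2 v
  have ha : a ∈ A ∪ B := by rw [← hN]; exact hva
  have hb : b ∈ A ∪ B := by rw [← hN]; exact hvb
  have hc : c ∈ A ∪ B := by rw [← hN]; exact hvc
  rcases ha with ha | ha
  · rcases hb with hb | hb
    · exact Or.inl (hA ha hb hab)
    · rcases hc with hc | hc
      · exact Or.inr (Or.inl (hA ha hc hac))
      · exact Or.inr (Or.inr (hB hb hc hbc))
  · rcases hb with hb | hb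
    · rcases hc with hc | hc
      · exact Or.inr (Or.inr (hA hb hc hbc))
      · exact Or.inr (Or.inl (hB ha hc hac))
    · exact Or.inl (hB ha hb hab)

/-- Connected pieces. -/
theorem piece_bound {d n : ℕ} (x0 x1 : ℕ) (hx : x0 + x1 = d + 2)
    (h1 : x0 ≤ x1) (h2 : x1 ≤ x0 + 1) (G : SimpleGraph (Fin n)) (hG : quasiLineClass d n G)
    (D : Finset (Fin n))
    (hconn : ∀ p : Fin n → Prop, (∀ x ∈ D, ∀ y ∈ D, G.Adj x y → p x → p y) →
      ∀ x ∈ D, ∀ y ∈ D, p x → p y) :
    ∃ W ⊆ D, Build G ∅ W ∧ (1 / (x0 : ℝ) + 1 / (x1 : ℝ)) * D.card ≤ W.card + 1 := by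
  classical
  have hex : ∀ v, ∃ A B, G.IsClique A ∧ G.IsClique B ∧ G.neighborSet v = A ∪ B := hG.2
  choose SA SB hSA hSB hSN using hex
  let A : Fin n → Finset (Fin n) := fun v => Finset.univ.filter (fun u => u ∈ SA v)
  let B : Fin n → Finset (Fin n) := fun v => Finset.univ.filter (fun u => u ∈ SB v ∧ u ∉ SA v)
  have mA : ∀ v u, u ∈ A v ↔ u ∈ SA v := fun v u => by simp [A]
  have mB : ∀ v u, u ∈ B v ↔ u ∈ SB v ∧ u ∉ SA v := fun v u => by simp [B]
  have hsubA : ∀ v u, u ∈ SA v → G.Adj v u := fun v u h => by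
    have : u ∈ G.neighborSet v := by rw [hSN]; exact Or.inl h
    exact this
  have hsubB : ∀ v u, u ∈ SB v → G.Adj v u := fun v u h => by
    have : u ∈ G.neighborSet v := by rw [hSN]; exact Or.inr h
    exact this
  have hvA : ∀ v ∈ D, v ∉ A v := fun v _ h => (hsubA v v ((mA v v).1 h)).ne rfl
  have hvB : ∀ v ∈ D, v ∉ B v := fun v _ h => (hsubB v v ((mB v v).1 h).1).ne rfl
  obtain ⟨σ, hσ⟩ := exists_order D A B hvA hvB
  obtain ⟨W₁, hW₁, c₁, hb, hl, hcount⟩ := order_build G D σ A B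
    (fun v _ x hx y hy hxy => hSA v ((mA v x).1 hx) ((mA v y).1 hy) hxy)
    (fun v _ x hx y hy hxy => hSB v ((mB v x).1 hx).1 ((mB v y).1 hy).1 hxy)
    (fun v _ u hvu => by
      have : u ∈ SA v ∪ SB v := by rw [← hSN]; exact hvu
      by_cases h : u ∈ SA v
      · exact Or.inl ((mA v u).2 h)
      · exact Or.inr ((mB v u).2 ⟨this.resolve_left h, h⟩))
  obtain ⟨W, hWD, hbW, hWc⟩ := exists_large_build D hconn (quasiLine_clawFree hG) W₁ hW₁ hb c₁ hl
  refine ⟨W, hWD, hbW, ?_⟩
  have hdeg : ∀ v, (A v).card + (B v).card ≤ d := by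
    intro v
    have hdisj : Disjoint (A v) (B v) := by
      rw [Finset.disjoint_left]
      intro u hu hu'
      exact ((mB v u).1 hu').2 ((mA v u).1 hu)
    rw [← Finset.card_union_of_disjoint hdisj]
    refine le_trans ?_ (hG.1 v)
    rw [← Set.ncard_coe_finset]
    apply Set.ncard_le_ncard _ (Set.toFinite _)
    intro u hu
    rw [Finset.mem_coe, Finset.mem_union] at hu
    rcases hu with hu | hu
    · exact hsubA v u ((mA v u).1 hu)
    · exact hsubB v u ((mB v u).1 hu).1
  have hterm : ∀ v ∈ D, 1 / (x0 : ℝ) + 1 / (x1 : ℝ)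
      ≤ 1 / (((A v).card : ℝ) + 1) + 1 / (((B v).card : ℝ) + 1) := by
    intro v _
    have := recip_ineq ((A v).card + 1) ((B v).card + 1) x0 x1 (by omega) (by omega)
      (by have := hdeg v; omega) h1 h2
    push_cast at this
    exact this
  have hsum : (1 / (x0 : ℝ) + 1 / (x1 : ℝ)) * D.card
      ≤ ∑ v ∈ D, (1 / (((A v).card : ℝ) + 1) + 1 / (((B v).card : ℝ) + 1)) := by
    have := Finset.sum_le_sum hterm
    rw [Finset.sum_const, nsmul_eq_mul, mul_comm] at this
    exact this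
  have hcount' : ((D.filter (fun v => ∀ u ∈ A v, σ v < σ u)).card : ℝ)
        + ((D.filter (fun v => ∀ u ∈ B v, σ v < σ u)).card : ℝ) ≤ (W.card : ℝ) + 1 := by
    exact_mod_cast hcount.trans hWc
  linarith

/-- **Upper bound for quasi-line graphs.** -/
theorem quasi_upper {d : ℕ} (x0 x1 : ℕ) (hx : x0 + x1 = d + 2) (h0 : 2 ≤ x0)
    (h1 : x0 ≤ x1) (h2 : x1 ≤ x0 + 1) (K : ℕ) (hK : 1 ≤ K) (n : ℕ) (G : SimpleGraph (Fin n))
    (hG : quasiLineClass d n G) :
    ∃ S : Finset (Fin n), (S.card : ℝ) ≤ (1 - 1 / (x0 : ℝ) - 1 / (x1 : ℝ) + 1 / (K : ℝ)) * n ∧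
      TreeWidthLE (G.induce {v | v ∉ S}) (max K d) := by
  classical
  set μ : ℝ := 1 / (x0 : ℝ) + 1 / (x1 : ℝ) with hμ
  have hx0 : (2 : ℝ) ≤ x0 := by exact_mod_cast h0
  have hx1 : (2 : ℝ) ≤ x1 := by exact_mod_cast h0.trans h1
  have hμ1 : μ ≤ 1 := by
    have e0 : 1 / (x0 : ℝ) ≤ 1 / 2 := one_div_le_one_div_of_le (by norm_num) hx0
    have e1 : 1 / (x1 : ℝ) ≤ 1 / 2 := one_div_le_one_div_of_le (by norm_num) hx1
    rw [hμ]; linarith
  have hKR : (0 : ℝ) < K := by exact_mod_cast (show 0 < K by omega)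
  let comp : Fin n → Finset (Fin n) := fun v => Finset.univ.filter (fun u => G.Reachable v u)
  have mcomp : ∀ v u, u ∈ comp v ↔ G.Reachable v u := fun v u => by simp [comp]
  have comp_eq : ∀ v u, G.Reachable v u → comp v = comp u := by
    intro v u h
    ext w
    rw [mcomp, mcomp]
    exact ⟨fun h' => h.symm.trans h', fun h' => h.trans h'⟩
  let H : SimpleGraph (Fin n) :=
    { Adj := fun u v => G.Adj u v ∨ (u ≠ v ∧ G.Reachable u v ∧ (comp u).card ≤ K)
      symm := ⟨fun u v h => by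
        rcases h with h | ⟨h1, h2, h3⟩
        · exact Or.inl h.symm
        · exact Or.inr ⟨h1.symm, h2.symm, by rw [← comp_eq u v h2]; exact h3⟩⟩
      loopless := ⟨fun u h => by
        rcases h with h | ⟨h1, _⟩
        · exact h.ne rfl
        · exact h1 rfl⟩ }
  have hHreach : ∀ u v, H.Adj u v → G.Reachable u v := by
    intro u v h
    rcases h with h | ⟨_, h, _⟩
    · exact h.reachable
    · exact h
  -- a good subset of every component
  have hpiece : ∀ D ∈ Finset.univ.image comp, ∃ W ⊆ D, Build H ∅ W ∧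
      (μ - 1 / K) * D.card ≤ W.card := by
    intro D hD
    obtain ⟨v, _, rfl⟩ := Finset.mem_image.1 hD
    rcases Nat.lt_or_ge K (comp v).card with hbig | hsmall
    · -- large component
      obtain ⟨W, hW, hb, hc⟩ := piece_bound x0 x1 hx h1 h2 G hG (comp v) (by
        intro p hp x hx y hy hpx
        have hxy : G.Reachable x y := ((mcomp v x).1 hx).symm.trans ((mcomp v y).1 hy)
        obtain ⟨w⟩ := hxy
        clear hy
        induction w with
        | nil => exact hpx
        | @cons a b c hab w ih =>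
          have hb : b ∈ comp v := (mcomp v b).2 (((mcomp v a).1 hx).trans hab.reachable)
          exact ih hb (hp a hx b hb hab hpx))
      refine ⟨W, hW, hb.congr ?_, ?_⟩
      · intro x hx y hy
        constructor
        · exact fun h => Or.inl h
        · rintro (h | ⟨_, _, h⟩)
          · exact h
          · exfalso
            rw [← comp_eq v x ((mcomp v x).1 (hW hx))] at h
            omega
      · have hbig' : (K : ℝ) ≤ (comp v).card := by exact_mod_cast hbig.le
        have : 1 ≤ (1 / (K : ℝ)) * (comp v).card := by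
          rw [one_div, ← div_eq_inv_mul, le_div_iff₀ hKR, one_mul]
          exact hbig'
        rw [sub_mul]
        linarith
    · -- small component
      refine ⟨comp v, subset_rfl, build_clique (Finset.empty_subset _) ?_, ?_⟩
      · intro x hx y hy hxy
        right
        refine ⟨hxy, ((mcomp v x).1 hx).symm.trans ((mcomp v y).1 hy), ?_⟩
        rw [← comp_eq v x ((mcomp v x).1 hx)]
        exact hsmall
      · have h3 : (0 : ℝ) ≤ (comp v).card := Nat.cast_nonneg _
        have h4 : μ - 1 / K ≤ 1 := by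
          have : (0 : ℝ) ≤ 1 / K := by positivity
          linarith
        calc (μ - 1 / K) * (comp v).card ≤ 1 * (comp v).card :=
              mul_le_mul_of_nonneg_right h4 h3
          _ = (comp v).card := one_mul _
  have hpiece' : ∀ D : Finset (Fin n), ∃ W : Finset (Fin n), D ∈ Finset.univ.image comp →
      (W ⊆ D ∧ Build H ∅ W ∧ (μ - 1 / K) * D.card ≤ W.card) := by
    intro D
    by_cases hD : D ∈ Finset.univ.image comp
    · obtain ⟨W, h⟩ := hpiece D hD
      exact ⟨W, fun _ => h⟩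
    · exact ⟨∅, fun h => absurd h hD⟩
  choose Wf hWf using hpiece'
  set W : Finset (Fin n) := (Finset.univ.image comp).biUnion Wf with hWdef
  -- the union is buildable
  have hbuild : ∀ 𝒮 : Finset (Finset (Fin n)), 𝒮 ⊆ Finset.univ.image comp →
      Build H ∅ (𝒮.biUnion Wf) := by
    intro 𝒮
    induction 𝒮 using Finset.induction_on with
    | empty => intro _; rw [Finset.biUnion_empty]; exact Build.base
    | insert D 𝒮 hD ih =>
      intro hsub
      have hDm : D ∈ Finset.univ.image comp := hsub (Finset.mem_insert_self _ _)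
      have ih' := ih ((Finset.subset_insert _ _).trans hsub)
      rw [Finset.biUnion_insert, Finset.union_comm]
      obtain ⟨hWD, hWb, _⟩ := hWf D hDm
      -- build `Wf D` on top of the rest
      have hsep : ∀ w ∈ Wf D, ∀ z ∈ 𝒮.biUnion Wf, ¬ G.Reachable w z := by
        intro w hw z hz hwz
        obtain ⟨E, hE, hzE⟩ := Finset.mem_biUnion.1 hz
        obtain ⟨a, _, rfl⟩ := Finset.mem_image.1 hDm
        obtain ⟨b, _, rfl⟩ := Finset.mem_image.1 (hsub (Finset.mem_insert_of_mem hE))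
        obtain ⟨hWE, _, _⟩ := hWf (comp b) (hsub (Finset.mem_insert_of_mem hE))
        have r1 := (mcomp a w).1 (hWD hw)
        have r2 := (mcomp b z).1 (hWE hzE)
        apply hD
        rw [comp_eq a b ((r1.trans hwz).trans r2.symm)]
        exact hE
      have := hWb.union (𝒮.biUnion Wf) (fun z hz hz' => absurd (Reachable.refl z) (hsep z hz' z hz))
        (fun w hw _ z hz hwz => hsep w hw z hz (hHreach w z hwz))
      rw [Finset.empty_union, Finset.union_comm] at this
      exact ih'.trans this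
  have hbW : Build H ∅ W := hbuild _ subset_rfl
  -- the size of `W`
  have hdisj : ((Finset.univ.image comp : Finset (Finset (Fin n))) : Set (Finset (Fin n))).PairwiseDisjoint id := by
    intro D hD E hE hDE
    rw [Function.onFun, Finset.disjoint_left]
    intro x hx hx'
    obtain ⟨a, _, rfl⟩ := Finset.mem_image.1 hD
    obtain ⟨b, _, rfl⟩ := Finset.mem_image.1 hE
    exact hDE (comp_eq a b (((mcomp a x).1 hx).trans ((mcomp b x).1 hx').symm))
  have hcardW : (W.card : ℝ) = ∑ D ∈ Finset.univ.image comp, ((Wf D).card : ℝ) := by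
    rw [hWdef, Finset.card_biUnion]
    · push_cast; rfl
    · intro D hD E hE hDE
      have := hdisj hD hE hDE
      rw [Function.onFun, id, id] at this
      exact Finset.disjoint_of_subset_left (hWf D hD).1
        (Finset.disjoint_of_subset_right (hWf E hE).1 this)
  have hcardn : (n : ℝ) = ∑ D ∈ Finset.univ.image comp, (D.card : ℝ) := by
    have h3 : (Finset.univ : Finset (Fin n)) = (Finset.univ.image comp).biUnion id := by
      ext x
      simp only [Finset.mem_univ, Finset.mem_biUnion, Finset.mem_image, true_and, id, true_iff]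
      exact ⟨comp x, ⟨x, rfl⟩, (mcomp x x).2 (Reachable.refl x)⟩
    have h4 := congrArg Finset.card h3
    rw [Finset.card_univ, Fintype.card_fin, Finset.card_biUnion (fun D hD E hE hDE =>
      hdisj hD hE hDE)] at h4
    have h5 : ((n : ℕ) : ℝ) = ((∑ D ∈ Finset.univ.image comp, (id D).card : ℕ) : ℝ) := by
      rw [← h4]
    rw [h5]
    push_cast
    rfl
  have hWge : (μ - 1 / K) * n ≤ W.card := by
    rw [hcardW, hcardn, Finset.mul_sum]
    exact Finset.sum_le_sum fun D hD => (hWf D hD).2.2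
  refine ⟨Finset.univ \ W, ?_, ?_⟩
  · have h3 : ((Finset.univ \ W).card : ℝ) = n - W.card := by
      rw [Finset.card_sdiff_of_subset (Finset.subset_univ _), Finset.card_univ,
        Fintype.card_fin, Nat.cast_sub]
      have := Finset.card_le_univ W
      rwa [Fintype.card_fin] at this
    rw [h3]
    have : (1 - 1 / (x0 : ℝ) - 1 / (x1 : ℝ) + 1 / (K : ℝ)) * n = n - (μ - 1 / K) * n := by
      rw [hμ]; ring
    rw [this]
    linarith
  · refine hbW.treeWidthLE (max K d) ?_ (fun x y h => Or.inl h) _ (fun v => by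
      simp)
    -- cliques of `H`
    intro Q _ hQ
    rcases Q.eq_empty_or_nonempty with rfl | ⟨x, hx⟩
    · simp
    · rcases Nat.lt_or_ge K (comp x).card with hbig | hsmall
      · have hsub : Q ⊆ insert x ((Set.toFinite (G.neighborSet x)).toFinset) := by
          intro y hy
          rw [Finset.mem_insert]
          by_cases hxy : y = x
          · exact Or.inl hxy
          · right
            rw [Set.Finite.mem_toFinset]
            rcases hQ x hx y hy (Ne.symm hxy) with h | ⟨_, _, h⟩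
            · exact h
            · omega
        have h3 := (Finset.card_le_card hsub).trans (Finset.card_insert_le _ _)
        rw [← Set.ncard_eq_toFinset_card] at h3
        have h4 := hG.1 x
        have h5 : d ≤ max K d := le_max_right _ _
        omega
      · have hsub : Q ⊆ comp x := by
          intro y hy
          by_cases hxy : y = x
          · rw [hxy]; exact (mcomp x x).2 (Reachable.refl x)
          · exact (mcomp x y).2 (hHreach x y (hQ x hx y hy (Ne.symm hxy)))
        have h3 := Finset.card_le_card hsub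
        have h5 : K ≤ max K d := le_max_left _ _
        omega

/-- The exact value, in terms of `x0 = ⌊(d+2)/2⌋`, `x1 = ⌈(d+2)/2⌉`. -/
theorem quasi_exact {d : ℕ} (x0 x1 : ℕ) (hx : x0 + x1 = d + 2) (h0 : 2 ≤ x0)
    (h1 : x0 ≤ x1) (h2 : x1 ≤ x0 + 1) :
    fragCoeff (quasiLineClass d) = 1 - 1 / (x0 : ℝ) - 1 / (x1 : ℝ) := by
  have hx0 : (2 : ℝ) ≤ x0 := by exact_mod_cast h0
  have hx1 : (2 : ℝ) ≤ x1 := by exact_mod_cast h0.trans h1
  have hμ1 : 1 / (x0 : ℝ) + 1 / (x1 : ℝ) ≤ 1 := by
    have e0 : 1 / (x0 : ℝ) ≤ 1 / 2 := one_div_le_one_div_of_le (by norm_num) hx0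
    have e1 : 1 / (x1 : ℝ) ≤ 1 / 2 := one_div_le_one_div_of_le (by norm_num) hx1
    linarith
  have hd : x0 + x1 - 2 = d := by omega
  have hmem : ∀ K : ℕ, 1 ≤ K → (1 - 1 / (x0 : ℝ) - 1 / (x1 : ℝ) + 1 / (K : ℝ)) ∈
      {lam : ℝ | 0 ≤ lam ∧ ∃ k : ℕ, ∀ (n : ℕ) (G : SimpleGraph (Fin n)), quasiLineClass d n G →
        ∃ S : Finset (Fin n), (S.card : ℝ) ≤ lam * (n : ℝ) ∧
          TreeWidthLE (G.induce {v | v ∉ S}) k} := by
    intro K hK
    refine ⟨?_, max K d, fun n G hG => quasi_upper x0 x1 hx h0 h1 h2 K hK n G hG⟩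
    have : (0 : ℝ) ≤ 1 / K := by positivity
    linarith
  apply le_antisymm
  · refine le_of_forall_pos_le_add fun ε hε => ?_
    obtain ⟨K, hK⟩ := exists_nat_gt (1 / ε)
    have hKpos : (0 : ℝ) < K := lt_trans (by positivity) hK
    have hK1 : 1 ≤ K := by exact_mod_cast hKpos
    have h3 : fragCoeff (quasiLineClass d) ≤ 1 - 1 / (x0 : ℝ) - 1 / (x1 : ℝ) + 1 / (K : ℝ) :=
      csInf_le ⟨0, fun x hx => hx.1⟩ (hmem K hK1)
    have h4 : 1 / (K : ℝ) ≤ ε := by
      rw [div_le_iff₀ hKpos]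
      rw [div_lt_iff₀ hε] at hK
      linarith
    linarith
  · refine le_csInf ⟨_, hmem 1 le_rfl⟩ ?_
    rintro lam ⟨_, k, hk⟩
    exact lower_bound x0 x1 (by omega) (by omega) _ (by rw [hd]; exact fun _ _ h => h) lam k hk

end Frag
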